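import Mathlib

/-!
# Harmonic sums of weight four modulo `p`
-/

set_option autoImplicit false

namespace Pool.Agent.H54.SC

open Finset

/-- splitting a sum over `2 h` terms by parity -/
theorem sum_eo {M : Type*} [AddCommMonoid M] (h : ℕ) (f : ℕ → M) :
    ∑ j ∈ range (2 * h), f j = ∑ j ∈ range h, f (2 * j) + ∑ j ∈ range h, f (2 * j + 1) := by
  induction h with
  | zero => simp
  | succ n ih =>
    rw [show 2 * (n + 1) = 2 * n + 1 + 1 by ring, sum_range_succ, sum_range_succ, ih,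
      sum_range_succ, sum_range_succ]
    abel

/-- splitting a sum over `2 h` terms into halves, the second one reflected -/
theorem sum_half {M : Type*} [AddCommMonoid M] (h : ℕ) (f : ℕ → M) :
    ∑ j ∈ range (2 * h), f j = ∑ j ∈ range h, f j + ∑ j ∈ range h, f (2 * h - 1 - j) := by
  have e : ∑ j ∈ range h, f (2 * h - 1 - j) = ∑ j ∈ range h, f (h + j) := by
    rw [← sum_range_reflect (fun j => f (h + j))]
    refine sum_congr rfl fun j hj => ?_
    have := mem_range.mp hj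
    congr 1
    omega
  rw [e, two_mul, sum_range_add]

theorem sum_odd_reflect {M : Type*} [AddCommMonoid M] (h : ℕ) (f : ℕ → M) :
    ∑ j ∈ range h, f (2 * j) = ∑ j ∈ range h, f (2 * h - 1 - (2 * j + 1)) := by
  rw [← sum_range_reflect]
  refine sum_congr rfl fun j hj => ?_
  have := mem_range.mp hj
  congr 1
  omega

theorem sum_range_zmod (p : ℕ) [Fact p.Prime] (f : ZMod p → ZMod p) :
    ∑ x : ZMod p, f x = ∑ j ∈ range p, f (j : ZMod p) := by
  symm
  refine Finset.sum_nbij' (fun j => (j : ZMod p)) (fun x => x.val) ?_ ?_ ?_ ?_ ?_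
  · intro j _; exact mem_univ _
  · intro x _; exact mem_range.mpr (ZMod.val_lt x)
  · intro j hj; exact ZMod.val_cast_of_lt (mem_range.mp hj)
  · intro x _; exact ZMod.natCast_zmod_val x
  · intro j _; rfl

theorem sum_inv_four (p h : ℕ) [hpf : Fact p.Prime] (hp : p = 2 * h + 1) (h7 : 7 ≤ p) :
    ∑ j ∈ range (2 * h), (((j + 1 : ℕ) : ZMod p)⁻¹) ^ 4 = 0 := by
  have h1 : ∑ x : ZMod p, x ^ (p - 5) = 0 := by
    apply FiniteField.sum_pow_lt_card_sub_one
    rw [ZMod.card]
    omega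
  have h2 : ∀ x : ZMod p, x ^ (p - 5) = (x⁻¹) ^ 4 := by
    intro x
    by_cases hx : x = 0
    · subst hx
      rw [zero_pow (by omega), inv_zero, zero_pow (by norm_num)]
    · have h3 : x ^ (p - 1) = 1 := ZMod.pow_card_sub_one_eq_one hx
      have h4 : x ^ (p - 1) = x ^ (p - 5) * x ^ 4 := by
        rw [← pow_add]; congr 1; omega
      have h5 : x ^ 4 ≠ 0 := pow_ne_zero _ hx
      rw [inv_pow]
      rw [← h4.symm.trans h3 |> fun e => (eq_inv_of_mul_eq_one_left e)]
  rw [sum_range_zmod] at h1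
  simp only [h2] at h1
  rw [show range p = range (2 * h + 1) by rw [← hp], Finset.sum_range_succ'] at h1
  simpa using h1

section key

variable (p h : ℕ) [hpf : Fact p.Prime]

/-- inverses modulo `p` -/
def r (n : ℕ) : ZMod p := ((n : ℕ) : ZMod p)⁻¹

theorem r_mul {n : ℕ} (h0 : 0 < n) (hn : n < p) : (n : ZMod p) * r p n = 1 := by
  unfold r
  apply mul_inv_cancel₀
  intro h
  rw [ZMod.natCast_eq_zero_iff] at h
  exact absurd (Nat.le_of_dvd h0 h) (by omega)

theorem r_reflect {n : ℕ} (hn : n ≤ p) : r p (p - n) = - r p n := by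
  unfold r
  rw [Nat.cast_sub hn]
  simp [← inv_neg]

theorem r_two_mul (n : ℕ) : r p (2 * n) = r p 2 * r p n := by
  unfold r
  push_cast
  rw [mul_inv]

theorem pf {m l : ℕ} (hm : 0 < m) (hl : 0 < l) (h : m + l < p) :
    r p m * r p l = r p (m + l) * (r p m + r p l) := by
  have e1 := r_mul p hm (by omega : m < p)
  have e2 := r_mul p hl (by omega : l < p)
  have e3 := r_mul p (by omega : 0 < m + l) h
  push_cast at e3
  linear_combination (-(r p m * r p l)) * e3 + (r p (m + l) * r p l) * e1 +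
    (r p (m + l) * r p m) * e2

/-- triangular sums -/
def Tri (f : ℕ → ℕ → ZMod p) : ZMod p := ∑ m ∈ Ico 1 p, ∑ l ∈ Ico 1 (p - m), f m l

theorem Tri_swap (f : ℕ → ℕ → ZMod p) : Tri p f = Tri p (fun m l => f l m) := by
  unfold Tri
  refine Finset.sum_comm' fun m l => ?_
  simp only [mem_Ico]
  omega

theorem Tri_congr {f g : ℕ → ℕ → ZMod p}
    (h : ∀ m l, 0 < m → 0 < l → m + l < p → f m l = g m l) : Tri p f = Tri p g := by
  unfold Tri
  refine sum_congr rfl fun m hm => sum_congr rfl fun l hl => ?_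
  rw [mem_Ico] at hm hl
  exact h m l (by omega) (by omega) (by omega)

theorem Tri_add (f g : ℕ → ℕ → ZMod p) :
    Tri p (fun m l => f m l + g m l) = Tri p f + Tri p g := by
  unfold Tri
  simp only [sum_add_distrib]

theorem Tri_reflect (f : ℕ → ℕ → ZMod p) :
    Tri p f = ∑ m ∈ Ico 1 p, ∑ l ∈ Ico (m + 1) p, f m (p - l) := by
  unfold Tri
  refine sum_congr rfl fun m hm => ?_
  rw [mem_Ico] at hm
  have h1 := Finset.sum_Ico_reflect (fun l => f m (p - l)) 1 (m := p - m) (n := p) (by omega)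
  rw [show p + 1 - (p - m) = m + 1 by omega, show p + 1 - 1 = p by omega] at h1
  rw [← h1]
  refine sum_congr rfl fun l hl => ?_
  rw [mem_Ico] at hl
  rw [show p - (p - l) = l by omega]

theorem Tri_shift (f : ℕ → ℕ → ZMod p) :
    Tri p (fun m l => f m (m + l)) = ∑ m ∈ Ico 1 p, ∑ n ∈ Ico (m + 1) p, f m n := by
  unfold Tri
  refine sum_congr rfl fun m hm => ?_
  rw [mem_Ico] at hm
  have h1 := Finset.sum_Ico_add (fun n => f m n) 1 (p - m) m
  rw [h1, show m + 1 = 1 + m by ring]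
  rw [show 1 + m = m + 1 by ring, show p - m + m = p by omega] 

theorem sq_sum (a : ℕ → ZMod p) (N : ℕ) : (∑ m ∈ Ico 1 N, a m) ^ 2 =
    ∑ m ∈ Ico 1 N, a m ^ 2 + 2 * ∑ m ∈ Ico 1 N, ∑ n ∈ Ico (m + 1) N, a m * a n := by
  have h1 : ∑ m ∈ Ico 1 N, ∑ n ∈ Ico (m + 1) N, a m * a n =
      ∑ n ∈ Ico 1 N, ∑ m ∈ Ico 1 n, a m * a n := by
    refine Finset.sum_comm' fun m l => ?_
    simp only [mem_Ico]
    omega
  rw [h1]
  clear h1
  induction N with
  | zero => simp
  | succ N ih =>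
    rcases Nat.eq_zero_or_pos N with rfl | hN
    · simp
    · rw [sum_Ico_succ_top hN, sum_Ico_succ_top hN, sum_Ico_succ_top hN, add_sq, ih,
        ← Finset.sum_mul]
      ring

/-- sign -/
def sg (n : ℕ) : ZMod p := (-1) ^ n

theorem sg_add (m n : ℕ) : sg p (m + n) = sg p m * sg p n := by unfold sg; rw [pow_add]

theorem sg_mul_self (n : ℕ) : sg p n * sg p n = 1 := by
  unfold sg
  rw [← mul_pow]; simp

theorem sg_reflect {n : ℕ} (hp : p = 2 * h + 1) (hn : n ≤ p) : sg p (p - n) = - sg p n := by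
  have h1 : sg p (p - n) * sg p n = -1 := by
    rw [← sg_add, Nat.sub_add_cancel hn]
    unfold sg
    rw [Odd.neg_one_pow ⟨h, hp⟩]
  have h2 := sg_mul_self p n
  linear_combination (sg p n) * h1 - (sg p (p - n)) * h2

theorem two_ne (hp : p = 2 * h + 1) (h7 : 7 ≤ p) : (2 : ZMod p) ≠ 0 := by
  intro h
  have h2 : ((2 : ℕ) : ZMod p) = 0 := by exact_mod_cast h
  rw [ZMod.natCast_eq_zero_iff] at h2
  exact absurd (Nat.le_of_dvd (by norm_num) h2) (by omega)

theorem sum_reflect_zero (hp : p = 2 * h + 1) (h7 : 7 ≤ p) (f : ℕ → ZMod p)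
    (hf : ∀ n, 0 < n → n < p → f (p - n) = - f n) : ∑ n ∈ Ico 1 p, f n = 0 := by
  have h1 := Finset.sum_Ico_reflect f 1 (m := p) (n := p) (by omega)
  rw [show p + 1 - p = 1 by omega, show p + 1 - 1 = p by omega] at h1
  have h2 : ∑ n ∈ Ico 1 p, f (p - n) = - ∑ n ∈ Ico 1 p, f n := by
    rw [← sum_neg_distrib]
    refine sum_congr rfl fun n hn => ?_
    rw [mem_Ico] at hn
    exact hf n (by omega) (by omega)
  rw [h2] at h1
  have h3 : (2 : ZMod p) * ∑ n ∈ Ico 1 p, f n = 0 := by linear_combination -h1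
  exact (mul_eq_zero.mp h3).resolve_left (two_ne p h hp h7)

theorem key1 (hp : p = 2 * h + 1) (h7 : 7 ≤ p) :
    ∑ m ∈ Ico 1 p, ∑ n ∈ Ico (m + 1) p, sg p (m + n) * r p m ^ 3 * r p n =
    ∑ m ∈ Ico 1 p, ∑ n ∈ Ico (m + 1) p, sg p n * r p m ^ 3 * r p n := by
  -- `D = 0`
  have hD : Tri p (fun m l => sg p (m + l) * r p m ^ 2 * r p l ^ 2) = 0 := by
    rw [Tri_reflect]
    have h1 : ∑ m ∈ Ico 1 p, ∑ l ∈ Ico (m + 1) p, sg p (m + (p - l)) * r p m ^ 2 * r p (p - l) ^ 2 =
        - ∑ m ∈ Ico 1 p, ∑ l ∈ Ico (m + 1) p, (sg p m * r p m ^ 2) * (sg p l * r p l ^ 2) := by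
      rw [← sum_neg_distrib]
      refine sum_congr rfl fun m hm => ?_
      rw [← sum_neg_distrib]
      refine sum_congr rfl fun l hl => ?_
      rw [mem_Ico] at hm hl
      rw [sg_add, sg_reflect p h hp (by omega), r_reflect p (by omega)]
      ring
    rw [h1]
    have h2 := sq_sum p (fun m => sg p m * r p m ^ 2) p
    have h3 : ∑ n ∈ Ico 1 p, sg p n * r p n ^ 2 = 0 := by
      refine sum_reflect_zero p h hp h7 _ fun n h0 hn => ?_
      rw [sg_reflect p h hp (by omega), r_reflect p (by omega)]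
      ring
    have h4 : ∑ n ∈ Ico 1 p, (sg p n * r p n ^ 2) ^ 2 = 0 := by
      have h5 := sum_inv_four p h hp h7
      rw [sum_Ico_eq_sum_range, show p - 1 = 2 * h by omega, ← h5]
      refine sum_congr rfl fun j _ => ?_
      rw [add_comm 1 j]
      have := sg_mul_self p (j + 1)
      unfold r
      linear_combination (((j + 1 : ℕ) : ZMod p)⁻¹) ^ 4 * this
    rw [h3, h4] at h2
    have h6 : (2 : ZMod p) * ∑ m ∈ Ico 1 p, ∑ l ∈ Ico (m + 1) p,
        (sg p m * r p m ^ 2) * (sg p l * r p l ^ 2) = 0 := by linear_combination -h2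
    rw [(mul_eq_zero.mp h6).resolve_left (two_ne p h hp h7), neg_zero]
  -- `U = 0`
  have hU : Tri p (fun m l => sg p (m + l) * r p m ^ 2 * r p l * r p (m + l)) = 0 := by
    have h1 : Tri p (fun m l => sg p (m + l) * r p m ^ 2 * r p l ^ 2) =
        Tri p (fun m l => sg p (m + l) * r p m ^ 2 * r p l * r p (m + l)) +
        Tri p (fun m l => sg p (m + l) * r p l ^ 2 * r p m * r p (m + l)) := by
      rw [← Tri_add]
      refine Tri_congr p fun m l hm hl hml => ?_
      have := pf p hm hl hml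
      linear_combination (sg p (m + l) * r p m * r p l) * this
    have h2 : Tri p (fun m l => sg p (m + l) * r p l ^ 2 * r p m * r p (m + l)) =
        Tri p (fun m l => sg p (m + l) * r p m ^ 2 * r p l * r p (m + l)) := by
      rw [Tri_swap]
      refine Tri_congr p fun m l _ _ _ => ?_
      rw [add_comm l m]
    rw [h2, hD] at h1
    have h6 : (2 : ZMod p) * Tri p (fun m l => sg p (m + l) * r p m ^ 2 * r p l * r p (m + l)) = 0 := by
      linear_combination -h1
    exact (mul_eq_zero.mp h6).resolve_left (two_ne p h hp h7)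
  have hA : Tri p (fun m l => sg p (m + l) * r p m ^ 3 * r p l) =
      Tri p (fun m l => sg p (m + l) * r p m ^ 3 * r p (m + l)) +
      Tri p (fun m l => sg p (m + l) * r p m ^ 2 * r p l * r p (m + l)) := by
    rw [← Tri_add]
    refine Tri_congr p fun m l hm hl hml => ?_
    have := pf p hm hl hml
    linear_combination (sg p (m + l) * r p m ^ 2) * this
  rw [hU, add_zero, Tri_reflect, Tri_shift p (fun m n => sg p n * r p m ^ 3 * r p n)] at hA
  rw [← hA]
  refine sum_congr rfl fun m hm => sum_congr rfl fun l hl => ?_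
  rw [mem_Ico] at hm hl
  rw [sg_add, sg_add, sg_reflect p h hp (by omega), r_reflect p (by omega)]
  ring

/-- alternating harmonic numbers `∑_{i<2j} (-1)^i/(i+1)` -/
def alt (j : ℕ) : ZMod p := ∑ i ∈ range (2 * j), (-1) ^ i * r p (i + 1)

theorem sum_Ico_one (f : ℕ → ZMod p) (N : ℕ) :
    ∑ n ∈ Ico 1 (N + 1), f n = ∑ j ∈ range N, f (j + 1) := by
  rw [sum_Ico_eq_sum_range, Nat.add_sub_cancel]
  exact sum_congr rfl fun j _ => by rw [add_comm]

theorem odd_cast (a : ℕ) (hp : p = 2 * h + 1) (h7 : 7 ≤ p)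
    (hH : ∑ j ∈ range (2 * h), r p (j + 1) ^ a = 0) :
    ∑ j ∈ range h, r p (2 * j + 1) ^ a = - (r p 2 ^ a * ∑ j ∈ range h, r p (j + 1) ^ a) := by
  rw [sum_eo] at hH
  have h1 : ∑ j ∈ range h, r p (2 * j + 1 + 1) ^ a = r p 2 ^ a * ∑ j ∈ range h, r p (j + 1) ^ a := by
    rw [Finset.mul_sum]
    refine sum_congr rfl fun j _ => ?_
    rw [show 2 * j + 1 + 1 = 2 * (j + 1) by ring, r_two_mul, mul_pow]
  rw [h1] at hH
  linear_combination hH

theorem H_odd (a : ℕ) (ha : Odd a) (hp : p = 2 * h + 1) (h7 : 7 ≤ p) :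
    ∑ j ∈ range (2 * h), r p (j + 1) ^ a = 0 := by
  have h1 := sum_reflect_zero p h hp h7 (fun n => r p n ^ a) fun n h0 hn => by
    rw [r_reflect p (by omega), ha.neg_pow]
  rwa [show Ico 1 p = Ico 1 (2 * h + 1) by rw [← hp], sum_Ico_one] at h1

theorem h_four (hp : p = 2 * h + 1) (h7 : 7 ≤ p) :
    ∑ j ∈ range h, r p (j + 1) ^ 4 = 0 := by
  have h5 : ∑ j ∈ range (2 * h), r p (j + 1) ^ 4 = 0 := sum_inv_four p h hp h7
  rw [sum_half] at h5
  have h1 : ∑ j ∈ range h, r p (2 * h - 1 - j + 1) ^ 4 = ∑ j ∈ range h, r p (j + 1) ^ 4 := by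
    refine sum_congr rfl fun j hj => ?_
    have := mem_range.mp hj
    rw [show 2 * h - 1 - j + 1 = p - (j + 1) by omega, r_reflect p (by omega)]
    ring
  rw [h1] at h5
  have h6 : (2 : ZMod p) * ∑ j ∈ range h, r p (j + 1) ^ 4 = 0 := by linear_combination h5
  exact (mul_eq_zero.mp h6).resolve_left (two_ne p h hp h7)

theorem key2 (hp : p = 2 * h + 1) (h7 : 7 ≤ p) :
    8 * ∑ j ∈ range h, alt p j * r p (2 * j + 1) ^ 3 =
      (∑ j ∈ range h, r p (j + 1)) * (∑ j ∈ range h, r p (j + 1) ^ 3) := by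
  have h2ne := two_ne p h hp h7
  have hr2 : (2 : ZMod p) * r p 2 = 1 := by
    have := r_mul p (n := 2) (by norm_num) (by omega)
    exact_mod_cast this
  have hO1 := odd_cast p h 1 hp h7 (H_odd p h 1 ⟨0, by norm_num⟩ hp h7)
  have hO3 := odd_cast p h 3 hp h7 (H_odd p h 3 ⟨1, by norm_num⟩ hp h7)
  have hO4 := odd_cast p h 4 hp h7 (sum_inv_four p h hp h7)
  rw [h_four p h hp h7, mul_zero, neg_zero] at hO4
  -- the alternating sum
  have hAlt : ∑ n ∈ Ico 1 p, sg p n * r p n = ∑ j ∈ range h, r p (j + 1) := by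
    rw [show Ico 1 p = Ico 1 (2 * h + 1) by rw [← hp], sum_Ico_one, sum_eo]
    have e1 : ∑ j ∈ range h, sg p (2 * j + 1) * r p (2 * j + 1) =
        - ∑ j ∈ range h, r p (2 * j + 1) ^ 1 := by
      rw [← sum_neg_distrib]
      refine sum_congr rfl fun j _ => ?_
      unfold sg
      rw [Odd.neg_one_pow ⟨j, rfl⟩]; ring
    have e2 : ∑ j ∈ range h, sg p (2 * j + 1 + 1) * r p (2 * j + 1 + 1) =
        r p 2 * ∑ j ∈ range h, r p (j + 1) ^ 1 := by
      rw [Finset.mul_sum]
      refine sum_congr rfl fun j _ => ?_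
      unfold sg
      rw [show 2 * j + 1 + 1 = 2 * (j + 1) by ring, Even.neg_one_pow ⟨j + 1, by ring⟩,
        r_two_mul]; ring
    rw [e1, e2, hO1]
    simp only [pow_one]
    linear_combination (∑ j ∈ range h, r p (j + 1)) * hr2
  have hk := key1 p h hp h7
  have hG : ∀ j ∈ range h, ∑ n ∈ Ico (2 * j + 1 + 1) p, sg p n * r p n =
      ∑ i ∈ range h, r p (i + 1) + alt p j + r p (2 * j + 1) := by
    intro j hj
    have := mem_range.mp hj
    have h1 := Finset.sum_Ico_consecutive (fun n => sg p n * r p n)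
      (by omega : 1 ≤ 2 * j + 1 + 1) (by omega : 2 * j + 1 + 1 ≤ p)
    rw [hAlt, sum_Ico_one, sum_range_succ] at h1
    have h2 : ∑ i ∈ range (2 * j), sg p (i + 1) * r p (i + 1) = - alt p j := by
      unfold alt sg
      rw [← sum_neg_distrib]
      refine sum_congr rfl fun i _ => ?_
      ring
    have h3 : sg p (2 * j + 1) = -1 := by
      unfold sg
      rw [Odd.neg_one_pow ⟨j, rfl⟩]
    rw [h2, h3] at h1
    linear_combination h1
  have hS : ∑ j ∈ range h, r p (2 * j + 1) ^ 3 * (∑ i ∈ range h, r p (i + 1) + alt p j +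
      r p (2 * j + 1)) = 0 := by
    have h1 : ∑ m ∈ Ico 1 p, ((sg p m - 1) * r p m ^ 3) * ∑ n ∈ Ico (m + 1) p, sg p n * r p n = 0 := by
      have h2 : ∑ m ∈ Ico 1 p, ((sg p m - 1) * r p m ^ 3) * ∑ n ∈ Ico (m + 1) p, sg p n * r p n =
          ∑ m ∈ Ico 1 p, ∑ n ∈ Ico (m + 1) p, sg p (m + n) * r p m ^ 3 * r p n -
          ∑ m ∈ Ico 1 p, ∑ n ∈ Ico (m + 1) p, sg p n * r p m ^ 3 * r p n := by
        rw [← sum_sub_distrib]
        refine sum_congr rfl fun m _ => ?_
        rw [← sum_sub_distrib, Finset.mul_sum]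
        refine sum_congr rfl fun n _ => ?_
        rw [sg_add]
        ring
      rw [h2, hk, sub_self]
    rw [show Ico 1 p = Ico 1 (2 * h + 1) by rw [← hp], sum_Ico_one, sum_eo] at h1
    have e2 : ∑ j ∈ range h, ((sg p (2 * j + 1 + 1) - 1) * r p (2 * j + 1 + 1) ^ 3) *
        ∑ n ∈ Ico (2 * j + 1 + 1 + 1) p, sg p n * r p n = 0 := by
      refine sum_eq_zero fun j _ => ?_
      unfold sg
      rw [show 2 * j + 1 + 1 = 2 * (j + 1) by ring, Even.neg_one_pow ⟨j + 1, by ring⟩]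
      ring
    rw [e2, add_zero] at h1
    have e1 : ∑ j ∈ range h, ((sg p (2 * j + 1) - 1) * r p (2 * j + 1) ^ 3) *
        ∑ n ∈ Ico (2 * j + 1 + 1) p, sg p n * r p n = (-2) * ∑ j ∈ range h, r p (2 * j + 1) ^ 3 *
        (∑ i ∈ range h, r p (i + 1) + alt p j + r p (2 * j + 1)) := by
      rw [Finset.mul_sum]
      refine sum_congr rfl fun j hj => ?_
      rw [hG j hj]
      unfold sg
      rw [Odd.neg_one_pow ⟨j, rfl⟩]
      ring
    rw [e1] at h1
    have h3 : (2 : ZMod p) * ∑ j ∈ range h, r p (2 * j + 1) ^ 3 *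
        (∑ i ∈ range h, r p (i + 1) + alt p j + r p (2 * j + 1)) = 0 := by linear_combination -h1
    exact (mul_eq_zero.mp h3).resolve_left h2ne
  have hS2 : ∑ j ∈ range h, r p (2 * j + 1) ^ 3 * (∑ i ∈ range h, r p (i + 1) + alt p j +
      r p (2 * j + 1)) = (∑ i ∈ range h, r p (i + 1)) * ∑ j ∈ range h, r p (2 * j + 1) ^ 3 +
      ∑ j ∈ range h, alt p j * r p (2 * j + 1) ^ 3 + ∑ j ∈ range h, r p (2 * j + 1) ^ 4 := by
    rw [Finset.mul_sum, ← sum_add_distrib, ← sum_add_distrib]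
    refine sum_congr rfl fun j _ => ?_
    ring
  rw [hS2, hO4, hO3] at hS
  have h8 : (8 : ZMod p) * r p 2 ^ 3 = 1 := by
    linear_combination (4 * r p 2 ^ 2 + 2 * r p 2 + 1) * hr2
  linear_combination 8 * hS + (∑ i ∈ range h, r p (i + 1)) * (∑ j ∈ range h, r p (j + 1) ^ 3) * h8

end key

end Pool.Agent.H54.SC
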