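import Mathlib
import Pool.Agent.H54.SC.ModP

/-!
# Harmonic sums modulo `p ^ 5`
-/

set_option autoImplicit false

namespace Pool.Agent.H54.SC

open Finset

variable (p h : ℕ) [hpf : Fact p.Prime]

/-- inverses modulo `p ^ 5` -/
def rho (n : ℕ) : ZMod (p ^ 5) := (n : ZMod (p ^ 5))⁻¹

omit hpf in
theorem P5 : (p : ZMod (p ^ 5)) ^ 5 = 0 := by
  have : ((p ^ 5 : ℕ) : ZMod (p ^ 5)) = 0 := ZMod.natCast_self _
  exact_mod_cast this

theorem rho_mul {n : ℕ} (h0 : 0 < n) (hn : n < p) : (n : ZMod (p ^ 5)) * rho p n = 1 := by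
  unfold rho
  apply ZMod.coe_mul_inv_eq_one
  apply Nat.Coprime.pow_right
  exact (Nat.coprime_of_lt_prime (by omega) hn hpf.out).symm

theorem rho_unique {n : ℕ} (h0 : 0 < n) (hn : n < p) {x : ZMod (p ^ 5)}
    (hx : (n : ZMod (p ^ 5)) * x = 1) : rho p n = x := by
  have := rho_mul p h0 hn
  linear_combination (rho p n) * (-hx) + x * this

theorem rho_reflect {n : ℕ} (h0 : 0 < n) (hn : n < p) :
    rho p (p - n) = - (rho p n + (p : ZMod (p ^ 5)) * rho p n ^ 2 + (p : ZMod (p ^ 5)) ^ 2 * rho p n ^ 3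
      + (p : ZMod (p ^ 5)) ^ 3 * rho p n ^ 4 + (p : ZMod (p ^ 5)) ^ 4 * rho p n ^ 5) := by
  apply rho_unique p (by omega) (by omega)
  rw [Nat.cast_sub hn.le]
  have h1 := rho_mul p h0 hn
  have h5 := P5 p
  linear_combination (1 + (p : ZMod (p ^ 5)) * rho p n + (p : ZMod (p ^ 5)) ^ 2 * rho p n ^ 2
      + (p : ZMod (p ^ 5)) ^ 3 * rho p n ^ 3 + (p : ZMod (p ^ 5)) ^ 4 * rho p n ^ 4) * h1
      - rho p n ^ 5 * h5

theorem rho_two_mul {n : ℕ} (h0 : 0 < n) (hn : 2 * n < p) : rho p (2 * n) = rho p 2 * rho p n := by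
  apply rho_unique p (by omega) hn
  have h1 := rho_mul p h0 (by omega : n < p)
  have h2 := rho_mul p (by omega : 0 < 2) (by omega : 2 < p)
  push_cast at h2 ⊢
  linear_combination (n : ZMod (p ^ 5)) * rho p n * h2 + h1

/-- reduction modulo `p` -/
def red : ZMod (p ^ 5) →+* ZMod p := ZMod.castHom (dvd_pow_self p (by norm_num)) (ZMod p)

theorem red_natCast (n : ℕ) : red p (n : ZMod (p ^ 5)) = n := map_natCast _ _

theorem red_rho {n : ℕ} (h0 : 0 < n) (hn : n < p) : red p (rho p n) = r p n := by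
  have h1 := congrArg (red p) (rho_mul p h0 hn)
  rw [map_mul, map_one, red_natCast] at h1
  have h2 := r_mul p h0 hn
  linear_combination (r p n) * h1 - (red p (rho p n)) * h2

theorem mul_of_red {x : ZMod (p ^ 5)} (hx : red p x = 0) : (p : ZMod (p ^ 5)) ^ 4 * x = 0 := by
  have : NeZero (p ^ 5) := ⟨pow_ne_zero _ hpf.out.ne_zero⟩
  obtain ⟨n, rfl⟩ := ZMod.natCast_zmod_surjective x
  rw [red_natCast, ZMod.natCast_eq_zero_iff] at hx
  obtain ⟨k, rfl⟩ := hx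
  have h5 := P5 p
  push_cast
  linear_combination (k : ZMod (p ^ 5)) * h5

/-- full harmonic sums -/
def HF (a : ℕ) : ZMod (p ^ 5) := ∑ j ∈ range (2 * h), rho p (j + 1) ^ a
/-- half harmonic sums -/
def HH (a : ℕ) : ZMod (p ^ 5) := ∑ j ∈ range h, rho p (j + 1) ^ a
/-- odd harmonic sums -/
def HO (a : ℕ) : ZMod (p ^ 5) := ∑ j ∈ range h, rho p (2 * j + 1) ^ a
/-- alternating harmonic numbers -/
def altR (j : ℕ) : ZMod (p ^ 5) := ∑ i ∈ range (2 * j), (-1) ^ i * rho p (i + 1)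

variable {p h}

theorem red_HF (hp : p = 2 * h + 1) (a : ℕ) :
    red p (HF p h a) = ∑ j ∈ range (2 * h), r p (j + 1) ^ a := by
  unfold HF
  rw [map_sum]
  refine sum_congr rfl fun j hj => ?_
  have := mem_range.mp hj
  rw [map_pow, red_rho p (by omega) (by omega)]

theorem red_HH (hp : p = 2 * h + 1) (a : ℕ) :
    red p (HH p h a) = ∑ j ∈ range h, r p (j + 1) ^ a := by
  unfold HH
  rw [map_sum]
  refine sum_congr rfl fun j hj => ?_
  have := mem_range.mp hj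
  rw [map_pow, red_rho p (by omega) (by omega)]

theorem red_altR (hp : p = 2 * h + 1) {j : ℕ} (hj : j < h) : red p (altR p j) = alt p j := by
  unfold altR alt
  rw [map_sum]
  refine sum_congr rfl fun i hi => ?_
  have := mem_range.mp hi
  rw [map_mul, map_pow, map_neg, map_one, red_rho p (by omega) (by omega)]

theorem f4 (hp : p = 2 * h + 1) (h7 : 7 ≤ p) : (p : ZMod (p ^ 5)) ^ 4 * HF p h 4 = 0 := by
  apply mul_of_red
  rw [red_HF hp]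
  exact sum_inv_four p h hp h7

theorem f4' (hp : p = 2 * h + 1) (h7 : 7 ≤ p) : (p : ZMod (p ^ 5)) ^ 4 * HH p h 4 = 0 := by
  apply mul_of_red
  rw [red_HH hp]
  exact h_four p h hp h7

theorem fkey (hp : p = 2 * h + 1) (h7 : 7 ≤ p) :
    8 * ((p : ZMod (p ^ 5)) ^ 4 * ∑ j ∈ range h, altR p j * rho p (2 * j + 1) ^ 3) =
      (p : ZMod (p ^ 5)) ^ 4 * (HH p h 1 * HH p h 3) := by
  have h1 : (p : ZMod (p ^ 5)) ^ 4 * (8 * (∑ j ∈ range h, altR p j * rho p (2 * j + 1) ^ 3)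
      - HH p h 1 * HH p h 3) = 0 := by
    apply mul_of_red
    rw [map_sub, map_mul, map_mul, red_HH hp, red_HH hp, map_sum]
    have h2 : ∑ j ∈ range h, red p (altR p j * rho p (2 * j + 1) ^ 3) =
        ∑ j ∈ range h, alt p j * r p (2 * j + 1) ^ 3 := by
      refine sum_congr rfl fun j hj => ?_
      have := mem_range.mp hj
      rw [map_mul, map_pow, red_altR hp this, red_rho p (by omega) (by omega)]
    have h3 := key2 p h hp h7
    have h8 : red p (8 : ZMod (p ^ 5)) = 8 := by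
      have := red_natCast p 8
      exact_mod_cast this
    rw [h2, h8, h3]
    simp only [pow_one]
    ring
  linear_combination h1

theorem g_reflect (hp : p = 2 * h + 1) {j : ℕ} (hj : j < 2 * h) :
    rho p (2 * h - 1 - j + 1) = - (rho p (j + 1) + (p : ZMod (p ^ 5)) * rho p (j + 1) ^ 2
      + (p : ZMod (p ^ 5)) ^ 2 * rho p (j + 1) ^ 3
      + (p : ZMod (p ^ 5)) ^ 3 * rho p (j + 1) ^ 4 + (p : ZMod (p ^ 5)) ^ 4 * rho p (j + 1) ^ 5) := by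
  rw [← rho_reflect p (by omega) (by omega)]
  congr 1
  omega

theorem f2 (hp : p = 2 * h + 1) :
    2 * ((p : ZMod (p ^ 5)) * HF p h 1) = - ((p : ZMod (p ^ 5)) ^ 2 * HF p h 2 +
      (p : ZMod (p ^ 5)) ^ 3 * HF p h 3 + (p : ZMod (p ^ 5)) ^ 4 * HF p h 4) := by
  have h1 : HF p h 1 = ∑ j ∈ range (2 * h), rho p (2 * h - 1 - j + 1) ^ 1 := by
    unfold HF
    rw [sum_range_reflect (fun j => rho p (j + 1) ^ 1)]
  have h2 : (p : ZMod (p ^ 5)) * HF p h 1 = - ((p : ZMod (p ^ 5)) * HF p h 1 +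
      (p : ZMod (p ^ 5)) ^ 2 * HF p h 2 +
      (p : ZMod (p ^ 5)) ^ 3 * HF p h 3 + (p : ZMod (p ^ 5)) ^ 4 * HF p h 4) := by
    conv_lhs => rw [h1]
    unfold HF
    simp only [Finset.mul_sum, ← sum_add_distrib, ← sum_neg_distrib]
    refine sum_congr rfl fun j hj => ?_
    rw [g_reflect hp (mem_range.mp hj)]
    linear_combination (- rho p (j + 1) ^ 5) * P5 p
  linear_combination h2

theorem f3 (hp : p = 2 * h + 1) :
    2 * ((p : ZMod (p ^ 5)) ^ 3 * HF p h 3) = - 3 * ((p : ZMod (p ^ 5)) ^ 4 * HF p h 4) := by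
  have h1 : HF p h 3 = ∑ j ∈ range (2 * h), rho p (2 * h - 1 - j + 1) ^ 3 := by
    unfold HF
    rw [sum_range_reflect (fun j => rho p (j + 1) ^ 3)]
  have h2 : (p : ZMod (p ^ 5)) ^ 3 * HF p h 3 = - ((p : ZMod (p ^ 5)) ^ 3 * HF p h 3 +
      3 * ((p : ZMod (p ^ 5)) ^ 4 * HF p h 4)) := by
    conv_lhs => rw [h1]
    unfold HF
    simp only [Finset.mul_sum, ← sum_add_distrib, ← sum_neg_distrib]
    refine sum_congr rfl fun j hj => ?_
    rw [g_reflect hp (mem_range.mp hj)]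
    generalize rho p (j + 1) = x
    have h5 := P5 p
    generalize (p : ZMod (p ^ 5)) = y at *
    have e : y ^ 3 * (-(x + y * x ^ 2 + y ^ 2 * x ^ 3 + y ^ 3 * x ^ 4 + y ^ 4 * x ^ 5)) ^ 3 -
      (-(y ^ 3 * x ^ 3 + 3 * (y ^ 4 * x ^ 4))) = y ^ 5 * (
        - y ^ 10 * x ^ 15 - 3 * y ^ 9 * x ^ 14 - 6 * y ^ 8 * x ^ 13 - 10 * y ^ 7 * x ^ 12
        - 15 * y ^ 6 * x ^ 11 - 18 * y ^ 5 * x ^ 10 - 19 * y ^ 4 * x ^ 9 - 18 * y ^ 3 * x ^ 8
        - 15 * y ^ 2 * x ^ 7 - 10 * y * x ^ 6 - 6 * x ^ 5) := by ring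
    rw [h5, zero_mul, sub_eq_zero] at e
    exact e
  linear_combination h2

theorem f2a (hp : p = 2 * h + 1) (h7 : 7 ≤ p) :
    (p : ZMod (p ^ 5)) ^ 2 * HF p h 2 = 2 * ((p : ZMod (p ^ 5)) ^ 2 * HH p h 2) +
      2 * ((p : ZMod (p ^ 5)) ^ 3 * HH p h 3) := by
  have h1 : (p : ZMod (p ^ 5)) ^ 2 * HF p h 2 = 2 * ((p : ZMod (p ^ 5)) ^ 2 * HH p h 2) +
      2 * ((p : ZMod (p ^ 5)) ^ 3 * HH p h 3) + 3 * ((p : ZMod (p ^ 5)) ^ 4 * HH p h 4) := by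
    unfold HF HH
    rw [sum_half]
    simp only [Finset.mul_sum, ← sum_add_distrib, mul_add]
    refine sum_congr rfl fun j hj => ?_
    rw [g_reflect hp (by have := mem_range.mp hj; omega)]
    generalize rho p (j + 1) = x
    have h5 := P5 p
    generalize (p : ZMod (p ^ 5)) = y at *
    have e : y ^ 2 * x ^ 2 + y ^ 2 * (-(x + y * x ^ 2 + y ^ 2 * x ^ 3 + y ^ 3 * x ^ 4 + y ^ 4 * x ^ 5)) ^ 2 -
      (2 * (y ^ 2 * x ^ 2) + 2 * (y ^ 3 * x ^ 3) + 3 * (y ^ 4 * x ^ 4)) = y ^ 5 * (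
        y ^ 5 * x ^ 10 + 2 * y ^ 4 * x ^ 9 + 3 * y ^ 3 * x ^ 8 + 4 * y ^ 2 * x ^ 7
        + 5 * y * x ^ 6 + 4 * x ^ 5) := by ring
    rw [h5, zero_mul, sub_eq_zero] at e
    exact e
  rw [h1, f4' hp h7]
  ring

theorem rho_even (hp : p = 2 * h + 1) {j : ℕ} (hj : j < h) :
    rho p (2 * j + 1 + 1) = rho p 2 * rho p (j + 1) := by
  rw [show 2 * j + 1 + 1 = 2 * (j + 1) by ring]
  exact rho_two_mul p (by omega) (by omega)

theorem HF_eo (hp : p = 2 * h + 1) (a : ℕ) :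
    HF p h a = HO p h a + rho p 2 ^ a * HH p h a := by
  unfold HF HO HH
  rw [sum_eo, Finset.mul_sum]
  congr 1
  refine sum_congr rfl fun j hj => ?_
  rw [rho_even hp (mem_range.mp hj), mul_pow]

theorem f2b (hp : p = 2 * h + 1) (h7 : 7 ≤ p) :
    (p : ZMod (p ^ 5)) ^ 2 * HF p h 2 = 2 * rho p 2 ^ 2 * ((p : ZMod (p ^ 5)) ^ 2 * HH p h 2) +
      2 * rho p 2 ^ 3 * ((p : ZMod (p ^ 5)) ^ 3 * HH p h 3) := by
  have h1 : (p : ZMod (p ^ 5)) ^ 2 * HF p h 2 = 2 * rho p 2 ^ 2 * ((p : ZMod (p ^ 5)) ^ 2 * HH p h 2) +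
      2 * rho p 2 ^ 3 * ((p : ZMod (p ^ 5)) ^ 3 * HH p h 3) +
      3 * rho p 2 ^ 4 * ((p : ZMod (p ^ 5)) ^ 4 * HH p h 4) := by
    unfold HF HH
    rw [sum_eo, sum_odd_reflect h (fun j => rho p (j + 1) ^ 2)]
    simp only [Finset.mul_sum, ← sum_add_distrib, mul_add]
    refine sum_congr rfl fun j hj => ?_
    rw [g_reflect hp (by have := mem_range.mp hj; omega), rho_even hp (mem_range.mp hj)]
    generalize rho p (j + 1) = x
    generalize rho p 2 = z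
    have h5 := P5 p
    generalize (p : ZMod (p ^ 5)) = y at *
    have e : y ^ 2 * (-(z * x + y * (z * x) ^ 2 + y ^ 2 * (z * x) ^ 3 + y ^ 3 * (z * x) ^ 4
        + y ^ 4 * (z * x) ^ 5)) ^ 2 + y ^ 2 * (z * x) ^ 2 -
      (2 * z ^ 2 * (y ^ 2 * x ^ 2) + 2 * z ^ 3 * (y ^ 3 * x ^ 3) + 3 * z ^ 4 * (y ^ 4 * x ^ 4)) =
      y ^ 5 * (y ^ 5 * (z * x) ^ 10 + 2 * y ^ 4 * (z * x) ^ 9 + 3 * y ^ 3 * (z * x) ^ 8
        + 4 * y ^ 2 * (z * x) ^ 7 + 5 * y * (z * x) ^ 6 + 4 * (z * x) ^ 5) := by ring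
    rw [h5, zero_mul, sub_eq_zero] at e
    exact e
  rw [h1, f4' hp h7]
  ring

theorem two_rho (h7 : 7 ≤ p) : 2 * rho p 2 = 1 := by
  have := rho_mul p (n := 2) (by norm_num) (by omega)
  exact_mod_cast this

theorem three_rho (h7 : 7 ≤ p) : 3 * rho p 3 = 1 := by
  have := rho_mul p (n := 3) (by norm_num) (by omega)
  exact_mod_cast this

/-- all sums expressed by `h₁` and `h₃` -/
theorem facts (hp : p = 2 * h + 1) (h7 : 7 ≤ p) :
    6 * ((p : ZMod (p ^ 5)) * HF p h 1) = (p : ZMod (p ^ 5)) ^ 3 * HH p h 3 ∧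
    3 * ((p : ZMod (p ^ 5)) ^ 2 * HF p h 2) = - ((p : ZMod (p ^ 5)) ^ 3 * HH p h 3) ∧
    (p : ZMod (p ^ 5)) ^ 3 * HF p h 3 = 0 ∧
    (p : ZMod (p ^ 5)) ^ 4 * HF p h 4 = 0 ∧
    6 * ((p : ZMod (p ^ 5)) ^ 2 * HH p h 2) = - 7 * ((p : ZMod (p ^ 5)) ^ 3 * HH p h 3) ∧
    (p : ZMod (p ^ 5)) ^ 4 * HH p h 4 = 0 := by
  have e2 := f2 hp
  have e3 := f3 hp
  have e4 := f4 hp h7
  have ea := f2a hp h7
  have eb := f2b hp h7
  have h2 := two_rho (p := p) h7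
  rw [e4] at e2 e3
  have e3' : (p : ZMod (p ^ 5)) ^ 3 * HF p h 3 = 0 := by
    linear_combination (rho p 2) * e3 - ((p : ZMod (p ^ 5)) ^ 3 * HF p h 3) * h2
  rw [e3'] at e2
  have k1 : 3 * ((p : ZMod (p ^ 5)) ^ 2 * HF p h 2) = - ((p : ZMod (p ^ 5)) ^ 3 * HH p h 3) := by
    linear_combination 4 * eb - ea + (2 * (2 * rho p 2 + 1) * ((p : ZMod (p ^ 5)) ^ 2 * HH p h 2)
      + (4 * rho p 2 ^ 2 + 2 * rho p 2 + 1) * ((p : ZMod (p ^ 5)) ^ 3 * HH p h 3)) * h2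
  refine ⟨?_, k1, e3', e4, ?_, f4' hp h7⟩
  · linear_combination 3 * e2 - k1
  · linear_combination k1 - 3 * ea

end Pool.Agent.H54.SC
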