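import Mathlib

/-!
# Truncated logarithms in a ring with `P ^ 5 = 0`
-/

set_option autoImplicit false

namespace Pool.Agent.H54.SC

open Finset

variable {R : Type*} [CommRing R]

/-- twelve times the truncated logarithm of `1 + P a` -/
def lg (P a : R) : R := 12 * P * a - 6 * P ^ 2 * a ^ 2 + 4 * P ^ 3 * a ^ 3 - 3 * P ^ 4 * a ^ 4

/-- `v` is twelve times the logarithm of `u` -/
def IsLog (P u v : R) : Prop := ∃ a, u = 1 + P * a ∧ v = lg P a

theorem lg_zero (P : R) : lg P 0 = 0 := by simp [lg]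

theorem lg_add {P : R} (hP : P ^ 5 = 0) (a b : R) :
    lg P (a + b + P * a * b) = lg P a + lg P b := by
  unfold lg
  linear_combination
    (-3 * P ^ 3 * a ^ 4 * b ^ 4 + (-12) * P ^ 2 * a ^ 4 * b ^ 3 + (-12) * P ^ 2 * a ^ 3 * b ^ 4
      + 4 * P * a ^ 3 * b ^ 3 - 18 * P * a ^ 4 * b ^ 2 - 18 * P * a ^ 2 * b ^ 4 - 48 * P * a ^ 3 * b ^ 3
      + 12 * a ^ 3 * b ^ 2 + 12 * a ^ 2 * b ^ 3 - 12 * a ^ 4 * b - 12 * a * b ^ 4
      - 72 * a ^ 3 * b ^ 2 - 72 * a ^ 2 * b ^ 3 + 24 * a ^ 2 * b ^ 3 + 24 * a ^ 3 * b ^ 2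
      + 12 * a ^ 2 * b ^ 3 + 12 * a ^ 3 * b ^ 2 + 12 * P * a ^ 3 * b ^ 3) * hP

theorem IsLog.one (P : R) : IsLog P 1 0 := ⟨0, by simp, (lg_zero P).symm⟩

theorem IsLog.mul {P u v u' v' : R} (hP : P ^ 5 = 0) (h : IsLog P u v) (h' : IsLog P u' v') :
    IsLog P (u * u') (v + v') := by
  obtain ⟨a, rfl, rfl⟩ := h
  obtain ⟨b, rfl, rfl⟩ := h'
  exact ⟨a + b + P * a * b, by ring, (lg_add hP a b).symm⟩

theorem IsLog.pow {P u v : R} (hP : P ^ 5 = 0) (h : IsLog P u v) (n : ℕ) :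
    IsLog P (u ^ n) (n * v) := by
  induction n with
  | zero => simpa using IsLog.one P
  | succ n ih =>
    rw [pow_succ]
    have := ih.mul hP h
    convert this using 1
    push_cast
    ring

theorem IsLog.prod {ι : Type*} {P : R} (hP : P ^ 5 = 0) (s : Finset ι) (a : ι → R) :
    IsLog P (∏ i ∈ s, (1 + P * a i)) (∑ i ∈ s, lg P (a i)) := by
  classical
  induction s using Finset.induction_on with
  | empty => simpa using IsLog.one P
  | insert i s hi ih =>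
    rw [Finset.prod_insert hi, Finset.sum_insert hi]
    exact (IsLog.mul hP ⟨a i, rfl, rfl⟩ ih)

theorem sum_lg {ι : Type*} {P : R} (s : Finset ι) (c : R) (r : ι → R) :
    ∑ i ∈ s, lg P (c * r i) = 12 * c * (P * ∑ i ∈ s, r i ^ 1) - 6 * c ^ 2 * (P ^ 2 * ∑ i ∈ s, r i ^ 2)
      + 4 * c ^ 3 * (P ^ 3 * ∑ i ∈ s, r i ^ 3) - 3 * c ^ 4 * (P ^ 4 * ∑ i ∈ s, r i ^ 4) := by
  simp only [Finset.mul_sum, ← Finset.sum_sub_distrib, ← Finset.sum_add_distrib]
  refine Finset.sum_congr rfl fun i _ => ?_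
  unfold lg
  ring

theorem IsLog.unit {P u v : R} (hP : P ^ 5 = 0) (h : IsLog P u v) : IsUnit u := by
  obtain ⟨a, rfl, rfl⟩ := h
  refine IsUnit.of_mul_eq_one (1 - P * a + P ^ 2 * a ^ 2 - P ^ 3 * a ^ 3 + P ^ 4 * a ^ 4) ?_
  linear_combination a ^ 5 * hP

theorem IsLog.of_mul {P u v w x : R} (hP : P ^ 5 = 0) (h : IsLog P u v) (h' : IsLog P (w * u) x) :
    IsLog P w (x - v) := by
  obtain ⟨a, rfl, rfl⟩ := h
  obtain ⟨b, hb, rfl⟩ := h'
  set z := 1 - P * a + P ^ 2 * a ^ 2 - P ^ 3 * a ^ 3 + P ^ 4 * a ^ 4 with hz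
  have hz1 : (1 + P * a) * z = 1 := by rw [hz]; linear_combination a ^ 5 * hP
  have hw : w = (1 + P * b) * z := by
    linear_combination (-w) * hz1 + z * hb
  set a' := - a + P * a ^ 2 - P ^ 2 * a ^ 3 + P ^ 3 * a ^ 4 with ha'
  have hza : z = 1 + P * a' := by rw [hz, ha']; ring
  have h0 : lg P a + lg P a' = 0 := by
    rw [← lg_add hP]
    have : P * (a + a' + P * a * a') = 0 := by
      rw [hza] at hz1
      linear_combination hz1
    unfold lg
    linear_combination (12 - 6 * P * (a + a' + P * a * a') + 4 * P ^ 2 * (a + a' + P * a * a') ^ 2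
      - 3 * P ^ 3 * (a + a' + P * a * a') ^ 3) * this
  have hl : IsLog P ((1 + P * b) * z) (lg P b + lg P a') :=
    IsLog.mul hP ⟨b, rfl, rfl⟩ ⟨a', hza, rfl⟩
  rw [hw]
  convert hl using 1
  linear_combination -h0

/-- a logarithm of the form `12 P³ w` -/
theorem IsLog.eq_of {P u w i12 : R} (hP : P ^ 5 = 0) (h12 : 12 * i12 = 1)
    (h : IsLog P u (12 * P ^ 3 * w)) : u = 1 + P ^ 3 * w := by
  have h1 : IsLog P (1 + P ^ 3 * w) (12 * P ^ 3 * w) := by
    refine ⟨P ^ 2 * w, by ring, ?_⟩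
    unfold lg
    linear_combination (6 * P * w ^ 2 - 4 * P ^ 4 * w ^ 3 + 3 * P ^ 7 * w ^ 4) * hP
  have hu := h1.unit hP
  obtain ⟨z, hz⟩ := hu.exists_right_inv
  have h2 : IsLog P (u * z) 0 := by
    have h3 : IsLog P (u * z) (12 * P ^ 3 * w - 12 * P ^ 3 * w) := by
      refine IsLog.of_mul hP h1 ?_
      have : u * z * (1 + P ^ 3 * w) = u := by linear_combination u * hz
      rw [this]
      exact h
    simpa using h3
  obtain ⟨a, ha, h0⟩ := h2
  have h4 : P * a = 0 := by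
    have e : (12 * (P * a)) * (1 - (6 * i12) * (P * a) + (4 * i12) * (P * a) ^ 2
        - (3 * i12) * (P * a) ^ 3) = 0 := by
      unfold lg at h0
      linear_combination -h0 + (-6 * (P * a) ^ 2 + 4 * (P * a) ^ 3 - 3 * (P * a) ^ 4) * h12
    have hun : IsUnit (1 - (6 * i12) * (P * a) + (4 * i12) * (P * a) ^ 2
        - (3 * i12) * (P * a) ^ 3) := by
      have : IsNilpotent (- (6 * i12) * (P * a) + (4 * i12) * (P * a) ^ 2
          - (3 * i12) * (P * a) ^ 3) := by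
        refine ⟨5, ?_⟩
        have : - (6 * i12) * (P * a) + (4 * i12) * (P * a) ^ 2
          - (3 * i12) * (P * a) ^ 3 = P * (- (6 * i12) * a + (4 * i12) * (P * a ^ 2)
          - (3 * i12) * (P ^ 2 * a ^ 3)) := by ring
        rw [this, mul_pow, hP, zero_mul]
      have h5 := this.isUnit_one_add
      convert h5 using 1
      ring
    have h6 : 12 * (P * a) = 0 := by
      rcases hun.exists_right_inv with ⟨y, hy⟩
      linear_combination y * e - 12 * (P * a) * hy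
    linear_combination i12 * h6 - (P * a) * h12
  have h7 : u * z = 1 := by rw [ha, h4, add_zero]
  linear_combination (1 + P ^ 3 * w) * h7 - u * hz

/-- multiplying by `P³` -/
theorem IsLog.cube_mul {P u v : R} (hP : P ^ 5 = 0) (h : IsLog P u v) :
    12 * P ^ 3 * u = 12 * P ^ 3 + P ^ 3 * v := by
  obtain ⟨a, rfl, rfl⟩ := h
  unfold lg
  linear_combination (6 * a ^ 2 - 4 * P * a ^ 3 + 3 * P ^ 2 * a ^ 4) * hP

end Pool.Agent.H54.SC
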