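import Mathlib
import Pool.Agent.H54.SC.Log
import Pool.Agent.H54.SC.Harm

/-!
# The two congruences in `ZMod (p ^ 5)`
-/

set_option autoImplicit false

namespace Pool.Agent.H54.SC

open Finset

/-- inductive step for the first family -/
theorem step1 {R : Type*} [CommRing R] {P N a b c U V al : R} (hP : P ^ 5 = 0)
    (ha : N * a = 1) (hb : (N + 1) * b = 1) (hc : (N + 2) * c = 1)
    (hE : U * ((N + 2 - 2 * P) * (N + 2 + P) * (N + 1 + P)) ^ 2 =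
      V * ((N + 2 * P) * (N - P) * (N + 1 - P)) ^ 2)
    (hV : P ^ 3 * V = P ^ 3 * (a ^ 4 * (1 + 2 * P * (2 * al + a)))) :
    P ^ 3 * U = P ^ 3 * (c ^ 4 * (1 + 2 * P * (2 * (al + a - b) + c))) := by
  have f1 : N + 2 - 2 * P = (N + 2) * (1 - 2 * P * c) := by linear_combination (2 * P) * hc
  have f2 : N + 2 + P = (N + 2) * (1 + P * c) := by linear_combination (-P) * hc
  have f3 : N + 1 + P = (N + 1) * (1 + P * b) := by linear_combination (-P) * hb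
  have f4 : N + 2 * P = N * (1 + 2 * P * a) := by linear_combination (-2 * P) * ha
  have f5 : N - P = N * (1 - P * a) := by linear_combination (P) * ha
  have f6 : N + 1 - P = (N + 1) * (1 - P * b) := by linear_combination (P) * hb
  rw [f1, f2, f3, f4, f5, f6] at hE
  have hc4 : (N + 2) ^ 4 * c ^ 4 = 1 := by rw [← mul_pow, hc, one_pow]
  have hb2 : (N + 1) ^ 2 * b ^ 2 = 1 := by rw [← mul_pow, hb, one_pow]
  have ha4 : N ^ 4 * a ^ 4 = 1 := by rw [← mul_pow, ha, one_pow]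
  have h1 : U * ((1 - 2 * P * c) * (1 + P * c) * (1 + P * b)) ^ 2 =
      c ^ 4 * N ^ 4 * V * ((1 + 2 * P * a) * (1 - P * a) * (1 - P * b)) ^ 2 := by
    have h2 : U * ((1 - 2 * P * c) * (1 + P * c) * (1 + P * b)) ^ 2 =
        ((N + 2) ^ 4 * c ^ 4) * ((N + 1) ^ 2 * b ^ 2) *
          (U * ((1 - 2 * P * c) * (1 + P * c) * (1 + P * b)) ^ 2) := by
      rw [hc4, hb2]; ring
    have h3 : c ^ 4 * N ^ 4 * V * ((1 + 2 * P * a) * (1 - P * a) * (1 - P * b)) ^ 2 =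
        ((N + 1) ^ 2 * b ^ 2) *
          (c ^ 4 * N ^ 4 * V * ((1 + 2 * P * a) * (1 - P * a) * (1 - P * b)) ^ 2) := by
      rw [hb2]; ring
    rw [h2, h3]
    linear_combination (c ^ 4 * b ^ 2) * hE
  -- multiply by `P ^ 3`
  have h4 : P ^ 3 * U * (1 - 2 * P * c + 2 * P * b) =
      c ^ 4 * N ^ 4 * (P ^ 3 * V) * (1 + 2 * P * a - 2 * P * b) := by
    have e1 : P ^ 3 * (U * ((1 - 2 * P * c) * (1 + P * c) * (1 + P * b)) ^ 2) =
        P ^ 3 * U * (1 - 2 * P * c + 2 * P * b) := by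
      have : ((1 - 2 * P * c) * (1 + P * c) * (1 + P * b)) ^ 2 = 1 - 2 * P * c + 2 * P * b +
          P ^ 2 * (b ^ 2 - 4 * b * c - 3 * c ^ 2 + P * (4 * c ^ 3 - 2 * b ^ 2 * c - 6 * b * c ^ 2) +
          P ^ 2 * (4 * c ^ 4 + 8 * b * c ^ 3 - 3 * b ^ 2 * c ^ 2) +
          P ^ 3 * (8 * b * c ^ 4 + 4 * b ^ 2 * c ^ 3) + P ^ 4 * (4 * b ^ 2 * c ^ 4)) := by ring
      rw [this]
      linear_combination (U * (b ^ 2 - 4 * b * c - 3 * c ^ 2 + P * (4 * c ^ 3 - 2 * b ^ 2 * c - 6 * b * c ^ 2) +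
          P ^ 2 * (4 * c ^ 4 + 8 * b * c ^ 3 - 3 * b ^ 2 * c ^ 2) +
          P ^ 3 * (8 * b * c ^ 4 + 4 * b ^ 2 * c ^ 3) + P ^ 4 * (4 * b ^ 2 * c ^ 4))) * hP
    have e2 : P ^ 3 * (c ^ 4 * N ^ 4 * V * ((1 + 2 * P * a) * (1 - P * a) * (1 - P * b)) ^ 2) =
        c ^ 4 * N ^ 4 * (P ^ 3 * V) * (1 + 2 * P * a - 2 * P * b) := by
      have : ((1 + 2 * P * a) * (1 - P * a) * (1 - P * b)) ^ 2 = 1 + 2 * P * a - 2 * P * b +
          P ^ 2 * (b ^ 2 - 4 * b * a - 3 * a ^ 2 + P * (- 4 * a ^ 3 + 2 * b ^ 2 * a + 6 * b * a ^ 2) +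
          P ^ 2 * (4 * a ^ 4 + 8 * b * a ^ 3 - 3 * b ^ 2 * a ^ 2) +
          P ^ 3 * (- 8 * b * a ^ 4 - 4 * b ^ 2 * a ^ 3) + P ^ 4 * (4 * b ^ 2 * a ^ 4)) := by ring
      rw [this]
      linear_combination (c ^ 4 * N ^ 4 * V * (b ^ 2 - 4 * b * a - 3 * a ^ 2 +
          P * (- 4 * a ^ 3 + 2 * b ^ 2 * a + 6 * b * a ^ 2) +
          P ^ 2 * (4 * a ^ 4 + 8 * b * a ^ 3 - 3 * b ^ 2 * a ^ 2) +
          P ^ 3 * (- 8 * b * a ^ 4 - 4 * b ^ 2 * a ^ 3) + P ^ 4 * (4 * b ^ 2 * a ^ 4))) * hP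
    rw [← e1, ← e2, h1]
  rw [hV] at h4
  have h5 : P ^ 3 * U * (1 - 2 * P * c + 2 * P * b) =
      P ^ 3 * c ^ 4 * (1 + 2 * P * (2 * al + a) + 2 * P * a - 2 * P * b) := by
    rw [h4]
    linear_combination (P ^ 3 * c ^ 4 * (1 + 2 * P * (2 * al + a)) * (1 + 2 * P * a - 2 * P * b)) * ha4
      + c ^ 4 * (2 * (2 * al + a) * (2 * a - 2 * b)) * hP
  linear_combination (1 + 2 * P * c - 2 * P * b) * h5 + (U * (2 * c - 2 * b) ^ 2
    + c ^ 4 * (2 * (2 * al + a) + 2 * a - 2 * b) * (2 * c - 2 * b)) * hP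

/-- inductive step for the second family -/
theorem step2 {R : Type*} [CommRing R] {P N a b c U V al i2 : R} (hP : P ^ 5 = 0) (h2 : 2 * i2 = 1)
    (ha : N * a = 1) (hb : (N + 1) * b = 1) (hc : (N + 2) * c = 1)
    (hE : U * ((2 * (N + 1) - P) * (2 * (N + 2) - P) * (N + 2 + P)) ^ 2 =
      V * ((2 * N + P) * (2 * (N + 1) + P) * (N - P)) ^ 2)
    (hV : P ^ 3 * V = P ^ 3 * (a ^ 4 * (1 - 2 * P * al - P * a))) :
    P ^ 3 * U = P ^ 3 * (c ^ 4 * (1 - 2 * P * (al + a - b) - P * c)) := by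
  have f1 : 2 * (N + 1) - P = (N + 1) * (2 - P * b) := by linear_combination P * hb
  have f2 : 2 * (N + 2) - P = (N + 2) * (2 - P * c) := by linear_combination P * hc
  have f3 : N + 2 + P = (N + 2) * (1 + P * c) := by linear_combination (-P) * hc
  have f4 : 2 * N + P = N * (2 + P * a) := by linear_combination (-P) * ha
  have f5 : 2 * (N + 1) + P = (N + 1) * (2 + P * b) := by linear_combination (-P) * hb
  have f6 : N - P = N * (1 - P * a) := by linear_combination (P) * ha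
  rw [f1, f2, f3, f4, f5, f6] at hE
  have hc4 : (N + 2) ^ 4 * c ^ 4 = 1 := by rw [← mul_pow, hc, one_pow]
  have hb2 : (N + 1) ^ 2 * b ^ 2 = 1 := by rw [← mul_pow, hb, one_pow]
  have ha4 : N ^ 4 * a ^ 4 = 1 := by rw [← mul_pow, ha, one_pow]
  have h1 : U * ((2 - P * b) * (2 - P * c) * (1 + P * c)) ^ 2 =
      c ^ 4 * N ^ 4 * V * ((2 + P * a) * (2 + P * b) * (1 - P * a)) ^ 2 := by
    have h2 : U * ((2 - P * b) * (2 - P * c) * (1 + P * c)) ^ 2 =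
        ((N + 2) ^ 4 * c ^ 4) * ((N + 1) ^ 2 * b ^ 2) *
          (U * ((2 - P * b) * (2 - P * c) * (1 + P * c)) ^ 2) := by
      rw [hc4, hb2]; ring
    have h3 : c ^ 4 * N ^ 4 * V * ((2 + P * a) * (2 + P * b) * (1 - P * a)) ^ 2 =
        ((N + 1) ^ 2 * b ^ 2) *
          (c ^ 4 * N ^ 4 * V * ((2 + P * a) * (2 + P * b) * (1 - P * a)) ^ 2) := by
      rw [hb2]; ring
    rw [h2, h3]
    linear_combination (c ^ 4 * b ^ 2) * hE
  have h4 : P ^ 3 * U * (16 - 16 * P * b + 16 * P * c) =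
      c ^ 4 * N ^ 4 * (P ^ 3 * V) * (16 + 16 * P * b - 16 * P * a) := by
    have e1 : ∃ q, ((2 - P * b) * (2 - P * c) * (1 + P * c)) ^ 2 =
        16 - 16 * P * b + 16 * P * c + P ^ 2 * q := by
      refine ⟨4 * b ^ 2 - 16 * b * c - 12 * c ^ 2 + P * (4 * b ^ 2 * c + 12 * b * c ^ 2 - 8 * c ^ 3) +
          P ^ 2 * (4 * c ^ 4 + 8 * b * c ^ 3 - 3 * b ^ 2 * c ^ 2) +
          P ^ 3 * (- 4 * b * c ^ 4 - 2 * b ^ 2 * c ^ 3) + P ^ 4 * (b ^ 2 * c ^ 4), ?_⟩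
      ring
    have e2 : ∃ q, ((2 + P * a) * (2 + P * b) * (1 - P * a)) ^ 2 =
        16 + 16 * P * b - 16 * P * a + P ^ 2 * q := by
      refine ⟨4 * b ^ 2 - 16 * b * a - 12 * a ^ 2 + P * (- 4 * b ^ 2 * a - 12 * b * a ^ 2 + 8 * a ^ 3) +
          P ^ 2 * (4 * a ^ 4 + 8 * b * a ^ 3 - 3 * b ^ 2 * a ^ 2) +
          P ^ 3 * (4 * b * a ^ 4 + 2 * b ^ 2 * a ^ 3) + P ^ 4 * (b ^ 2 * a ^ 4), ?_⟩
      ring
    obtain ⟨q1, hq1⟩ := e1
    obtain ⟨q2, hq2⟩ := e2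
    rw [hq1, hq2] at h1
    linear_combination P ^ 3 * h1 + (c ^ 4 * N ^ 4 * V * q2 - U * q1) * hP
  rw [hV] at h4
  have h16 : 16 * i2 ^ 4 = 1 := by
    linear_combination (8 * i2 ^ 3 + 4 * i2 ^ 2 + 2 * i2 + 1) * h2
  have h5 : P ^ 3 * U * (1 - P * b + P * c) =
      P ^ 3 * c ^ 4 * (1 - 2 * P * al - P * a + P * b - P * a) := by
    linear_combination (i2 ^ 4) * h4 - (P ^ 3 * U * (1 - P * b + P * c)) * h16
      + (P ^ 3 * c ^ 4 * N ^ 4 * a ^ 4 * (1 - 2 * P * al - P * a) * (1 + P * b - P * a)) * h16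
      + (P ^ 3 * c ^ 4 * (1 - 2 * P * al - P * a) * (1 + P * b - P * a)) * ha4
      + c ^ 4 * (- 2 * al - a) * (b - a) * hP
  linear_combination (1 + P * b - P * c) * h5 + (U * (c - b) ^ 2
    + c ^ 4 * (- 2 * al - a + b - a) * (b - c)) * hP

variable {p h : ℕ} [hpf : Fact p.Prime]

omit hpf in
theorem altR_succ (k : ℕ) : altR p (k + 1) = altR p k + rho p (2 * k + 1) - rho p (2 * k + 1 + 1) := by
  unfold altR
  rw [show 2 * (k + 1) = 2 * k + 1 + 1 by ring, sum_range_succ, sum_range_succ]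
  rw [Even.neg_one_pow ⟨k, by ring⟩, Odd.neg_one_pow ⟨k, rfl⟩]
  ring

theorem fam1 (hp : p = 2 * h + 1) (v : ℕ → ZMod (p ^ 5))
    (h0 : v 0 * ((1 + (p : ZMod (p ^ 5))) * (1 - 2 * (p : ZMod (p ^ 5)))) = 1)
    (hs : ∀ k, k + 1 < h → v (k + 1) * ((2 * (k : ZMod (p ^ 5)) + 1 + 2 - 2 * (p : ZMod (p ^ 5))) *
      (2 * (k : ZMod (p ^ 5)) + 1 + 2 + (p : ZMod (p ^ 5))) * (2 * (k : ZMod (p ^ 5)) + 1 + 1 + (p : ZMod (p ^ 5)))) =
      v k * ((2 * (k : ZMod (p ^ 5)) + 1 + 2 * (p : ZMod (p ^ 5))) * (2 * (k : ZMod (p ^ 5)) + 1 - (p : ZMod (p ^ 5))) *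
        (2 * (k : ZMod (p ^ 5)) + 1 + 1 - (p : ZMod (p ^ 5))))) (k : ℕ) (hk : k < h) :
    (p : ZMod (p ^ 5)) ^ 3 * v k ^ 2 = (p : ZMod (p ^ 5)) ^ 3 * (rho p (2 * k + 1) ^ 4 * (1 + 2 * (p : ZMod (p ^ 5)) * (2 * altR p k + rho p (2 * k + 1)))) := by
  have h5 := P5 p
  induction k with
  | zero =>
    have h1 : rho p (2 * 0 + 1) = 1 := by
      have := rho_mul p (n := 1) (by norm_num) (by omega)
      simpa using this
    have h2 : altR p 0 = 0 := by simp [altR]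
    rw [h1, h2]
    linear_combination ((p : ZMod (p ^ 5)) ^ 3 * (1 + 2 * (p : ZMod (p ^ 5))) * (v 0 * ((1 + (p : ZMod (p ^ 5))) * (1 - 2 * (p : ZMod (p ^ 5)))) + 1)) * h0
      + (v 0 ^ 2 * (7 + 2 * (p : ZMod (p ^ 5)) - 12 * (p : ZMod (p ^ 5)) ^ 2 - 8 * (p : ZMod (p ^ 5)) ^ 3)) * h5
  | succ k ih =>
    have ha := rho_mul p (n := 2 * k + 1) (by omega) (by omega)
    have hb := rho_mul p (n := 2 * k + 1 + 1) (by omega) (by omega)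
    have hc := rho_mul p (n := 2 * k + 1 + 2) (by omega) (by omega)
    have hE := hs k hk
    push_cast at ha hb hc
    have hE2 : v (k + 1) ^ 2 * ((2 * (k : ZMod (p ^ 5)) + 1 + 2 - 2 * (p : ZMod (p ^ 5))) *
      (2 * (k : ZMod (p ^ 5)) + 1 + 2 + (p : ZMod (p ^ 5))) * (2 * (k : ZMod (p ^ 5)) + 1 + 1 + (p : ZMod (p ^ 5)))) ^ 2 =
      v k ^ 2 * ((2 * (k : ZMod (p ^ 5)) + 1 + 2 * (p : ZMod (p ^ 5))) * (2 * (k : ZMod (p ^ 5)) + 1 - (p : ZMod (p ^ 5))) *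
        (2 * (k : ZMod (p ^ 5)) + 1 + 1 - (p : ZMod (p ^ 5)))) ^ 2 := by
      rw [← mul_pow, ← mul_pow, hE]
    have := step1 h5 ha hb hc hE2 (ih (by omega))
    rw [altR_succ, show 2 * (k + 1) + 1 = 2 * k + 1 + 2 by ring]
    exact this

theorem fam2 (hp : p = 2 * h + 1) (h7 : 7 ≤ p) (v : ℕ → ZMod (p ^ 5))
    (h0 : v 0 * ((2 - (p : ZMod (p ^ 5))) * (1 + (p : ZMod (p ^ 5)))) = 2)
    (hs : ∀ k, k + 1 < h → v (k + 1) * ((2 * (2 * (k : ZMod (p ^ 5)) + 1 + 1) - (p : ZMod (p ^ 5))) *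
      (2 * (2 * (k : ZMod (p ^ 5)) + 1 + 2) - (p : ZMod (p ^ 5))) * (2 * (k : ZMod (p ^ 5)) + 1 + 2 + (p : ZMod (p ^ 5)))) =
      v k * ((2 * (2 * (k : ZMod (p ^ 5)) + 1) + (p : ZMod (p ^ 5))) * (2 * (2 * (k : ZMod (p ^ 5)) + 1 + 1) + (p : ZMod (p ^ 5))) *
        (2 * (k : ZMod (p ^ 5)) + 1 - (p : ZMod (p ^ 5))))) (k : ℕ) (hk : k < h) :
    (p : ZMod (p ^ 5)) ^ 3 * v k ^ 2 = (p : ZMod (p ^ 5)) ^ 3 * (rho p (2 * k + 1) ^ 4 * (1 - 2 * (p : ZMod (p ^ 5)) * altR p k - (p : ZMod (p ^ 5)) * rho p (2 * k + 1))) := by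
  have h5 := P5 p
  have h2 := two_rho (p := p) h7
  induction k with
  | zero =>
    have h1 : rho p (2 * 0 + 1) = 1 := by
      have := rho_mul p (n := 1) (by norm_num) (by omega)
      simpa using this
    have h2' : altR p 0 = 0 := by simp [altR]
    rw [h1, h2']
    have h3 : 4 * ((p : ZMod (p ^ 5)) ^ 3 * v 0 ^ 2) = 4 * ((p : ZMod (p ^ 5)) ^ 3 * (1 - (p : ZMod (p ^ 5)))) := by
      linear_combination ((p : ZMod (p ^ 5)) ^ 3 * (1 - (p : ZMod (p ^ 5))) * (v 0 * ((2 - (p : ZMod (p ^ 5))) * (1 + (p : ZMod (p ^ 5)))) + 2)) * h0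
        + (v 0 ^ 2 * (7 - (p : ZMod (p ^ 5)) - 3 * (p : ZMod (p ^ 5)) ^ 2 + (p : ZMod (p ^ 5)) ^ 3)) * h5
    have h4 : (rho p 2) ^ 2 * 4 = 1 := by
      linear_combination (2 * rho p 2 + 1) * h2
    linear_combination (rho p 2) ^ 2 * h3 + ((p : ZMod (p ^ 5)) ^ 3 * (1 - (p : ZMod (p ^ 5))) - (p : ZMod (p ^ 5)) ^ 3 * v 0 ^ 2) * h4
  | succ k ih =>
    have ha := rho_mul p (n := 2 * k + 1) (by omega) (by omega)
    have hb := rho_mul p (n := 2 * k + 1 + 1) (by omega) (by omega)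
    have hc := rho_mul p (n := 2 * k + 1 + 2) (by omega) (by omega)
    have hE := hs k hk
    push_cast at ha hb hc
    have hE2 : v (k + 1) ^ 2 * ((2 * (2 * (k : ZMod (p ^ 5)) + 1 + 1) - (p : ZMod (p ^ 5))) *
      (2 * (2 * (k : ZMod (p ^ 5)) + 1 + 2) - (p : ZMod (p ^ 5))) * (2 * (k : ZMod (p ^ 5)) + 1 + 2 + (p : ZMod (p ^ 5)))) ^ 2 =
      v k ^ 2 * ((2 * (2 * (k : ZMod (p ^ 5)) + 1) + (p : ZMod (p ^ 5))) * (2 * (2 * (k : ZMod (p ^ 5)) + 1 + 1) + (p : ZMod (p ^ 5))) *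
        (2 * (k : ZMod (p ^ 5)) + 1 - (p : ZMod (p ^ 5)))) ^ 2 := by
      rw [← mul_pow, ← mul_pow, hE]
    have := step2 h5 h2 ha hb hc hE2 (ih (by omega))
    rw [altR_succ, show 2 * (k + 1) + 1 = 2 * k + 1 + 2 by ring]
    exact this

theorem HO4 (hp : p = 2 * h + 1) (h7 : 7 ≤ p) : (p : ZMod (p ^ 5)) ^ 4 * HO p h 4 = 0 := by
  obtain ⟨_, _, _, e4, _, e6⟩ := facts hp h7
  have := HF_eo (p := p) (h := h) hp 4
  linear_combination (-(p : ZMod (p ^ 5)) ^ 4) * this + e4 - rho p 2 ^ 4 * e6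

theorem HO3 (hp : p = 2 * h + 1) (h7 : 7 ≤ p) : 8 * ((p : ZMod (p ^ 5)) ^ 3 * HO p h 3) = - ((p : ZMod (p ^ 5)) ^ 3 * HH p h 3) := by
  obtain ⟨_, _, e3, _, _, _⟩ := facts hp h7
  have := HF_eo (p := p) (h := h) hp 3
  have h2 := two_rho (p := p) h7
  have h8 : 8 * rho p 2 ^ 3 = 1 := by
    linear_combination (4 * rho p 2 ^ 2 + 2 * rho p 2 + 1) * h2
  linear_combination (-8 * (p : ZMod (p ^ 5)) ^ 3) * this + 8 * e3 - ((p : ZMod (p ^ 5)) ^ 3 * HH p h 3) * h8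

theorem HO1 (hp : p = 2 * h + 1) (h7 : 7 ≤ p) : 6 * ((p : ZMod (p ^ 5)) * HO p h 1) =
    (p : ZMod (p ^ 5)) ^ 3 * HH p h 3 - 3 * ((p : ZMod (p ^ 5)) * HH p h 1) := by
  obtain ⟨e1, _, _, _, _, _⟩ := facts hp h7
  have := HF_eo (p := p) (h := h) hp 1
  have h2 := two_rho (p := p) h7
  linear_combination (-6 * (p : ZMod (p ^ 5))) * this + e1 - (3 * (p : ZMod (p ^ 5)) * HH p h 1) * h2

/-- the sum over the first family -/
theorem fam1_sum (hp : p = 2 * h + 1) (h7 : 7 ≤ p) (v : ℕ → ZMod (p ^ 5))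
    (hv : ∀ k < h, (p : ZMod (p ^ 5)) ^ 3 * v k ^ 2 =
      (p : ZMod (p ^ 5)) ^ 3 * (rho p (2 * k + 1) ^ 4 * (1 + 2 * (p : ZMod (p ^ 5)) * (2 * altR p k + rho p (2 * k + 1))))) :
    8 * ((p : ZMod (p ^ 5)) ^ 3 * ∑ k ∈ range h, (2 * (k : ZMod (p ^ 5)) + 1) * v k ^ 2) =
      - ((p : ZMod (p ^ 5)) ^ 3 * HH p h 3) + 4 * ((p : ZMod (p ^ 5)) * HH p h 1) * ((p : ZMod (p ^ 5)) ^ 3 * HH p h 3) := by
  have h1 : (p : ZMod (p ^ 5)) ^ 3 * ∑ k ∈ range h, (2 * (k : ZMod (p ^ 5)) + 1) * v k ^ 2 =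
      (p : ZMod (p ^ 5)) ^ 3 * HO p h 3 + 4 * ((p : ZMod (p ^ 5)) ^ 4 * ∑ j ∈ range h, altR p j * rho p (2 * j + 1) ^ 3)
        + 2 * ((p : ZMod (p ^ 5)) ^ 4 * HO p h 4) := by
    unfold HO
    simp only [Finset.mul_sum, ← sum_add_distrib]
    refine sum_congr rfl fun k hk => ?_
    have hk' := mem_range.mp hk
    have ha := rho_mul p (n := 2 * k + 1) (by omega) (by omega)
    push_cast at ha
    linear_combination (2 * (k : ZMod (p ^ 5)) + 1) * hv k hk' +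
      ((p : ZMod (p ^ 5)) ^ 3 * rho p (2 * k + 1) ^ 3 * (1 + 2 * (p : ZMod (p ^ 5)) * (2 * altR p k + rho p (2 * k + 1)))) * ha
  rw [h1]
  have h2 := fkey (p := p) hp h7
  have h3 := HO3 (p := p) hp h7
  have h4 := HO4 (p := p) hp h7
  linear_combination h3 + 4 * h2 + 16 * h4

/-- the sum over the second family -/
theorem fam2_sum (hp : p = 2 * h + 1) (h7 : 7 ≤ p) (v : ℕ → ZMod (p ^ 5))
    (hv : ∀ k < h, (p : ZMod (p ^ 5)) ^ 3 * v k ^ 2 =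
      (p : ZMod (p ^ 5)) ^ 3 * (rho p (2 * k + 1) ^ 4 * (1 - 2 * (p : ZMod (p ^ 5)) * altR p k - (p : ZMod (p ^ 5)) * rho p (2 * k + 1)))) :
    8 * ((p : ZMod (p ^ 5)) ^ 3 * ∑ k ∈ range h, (2 * (k : ZMod (p ^ 5)) + 1) * v k ^ 2) =
      - ((p : ZMod (p ^ 5)) ^ 3 * HH p h 3) - 2 * ((p : ZMod (p ^ 5)) * HH p h 1) * ((p : ZMod (p ^ 5)) ^ 3 * HH p h 3) := by
  have h1 : (p : ZMod (p ^ 5)) ^ 3 * ∑ k ∈ range h, (2 * (k : ZMod (p ^ 5)) + 1) * v k ^ 2 =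
      (p : ZMod (p ^ 5)) ^ 3 * HO p h 3 + (-2) * ((p : ZMod (p ^ 5)) ^ 4 * ∑ j ∈ range h, altR p j * rho p (2 * j + 1) ^ 3)
        + (-1) * ((p : ZMod (p ^ 5)) ^ 4 * HO p h 4) := by
    unfold HO
    simp only [Finset.mul_sum, ← sum_add_distrib]
    refine sum_congr rfl fun k hk => ?_
    have hk' := mem_range.mp hk
    have ha := rho_mul p (n := 2 * k + 1) (by omega) (by omega)
    push_cast at ha
    linear_combination (2 * (k : ZMod (p ^ 5)) + 1) * hv k hk' +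
      ((p : ZMod (p ^ 5)) ^ 3 * rho p (2 * k + 1) ^ 3 * (1 - 2 * (p : ZMod (p ^ 5)) * altR p k - (p : ZMod (p ^ 5)) * rho p (2 * k + 1))) * ha
  rw [h1]
  have h2 := fkey (p := p) hp h7
  have h3 := HO3 (p := p) hp h7
  have h4 := HO4 (p := p) hp h7
  linear_combination h3 - 2 * h2 - 8 * h4

end Pool.Agent.H54.SC
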