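import Mathlib
import Pool.Agent.H54.SC.Ring1

/-!
# The two congruences in `ZMod (p ^ 5)`, final form
-/

set_option autoImplicit false

namespace Pool.Agent.H54.SC

open Finset

variable {p h : ℕ} [hpf : Fact p.Prime]

/-- products over the full range -/
def PF (p h : ℕ) (c : ZMod (p ^ 5)) : ZMod (p ^ 5) :=
  ∏ j ∈ range (2 * h), (1 + (p : ZMod (p ^ 5)) * (c * rho p (j + 1)))
/-- products over the first half -/
def PH (p h : ℕ) (c : ZMod (p ^ 5)) : ZMod (p ^ 5) :=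
  ∏ j ∈ range h, (1 + (p : ZMod (p ^ 5)) * (c * rho p (j + 1)))
/-- products over odd indices -/
def PO (p h : ℕ) (c : ZMod (p ^ 5)) : ZMod (p ^ 5) :=
  ∏ j ∈ range h, (1 + (p : ZMod (p ^ 5)) * (c * rho p (2 * j + 1)))

theorem log_PF (p h : ℕ) (c : ZMod (p ^ 5)) : IsLog (p : ZMod (p ^ 5)) (PF p h c)
    (12 * c * (p * HF p h 1) - 6 * c ^ 2 * (p ^ 2 * HF p h 2)
      + 4 * c ^ 3 * (p ^ 3 * HF p h 3) - 3 * c ^ 4 * (p ^ 4 * HF p h 4)) := by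
  have h1 := IsLog.prod (P5 p) (range (2 * h)) (fun j => c * rho p (j + 1))
  rw [sum_lg] at h1
  exact h1

theorem log_PH (p h : ℕ) (c : ZMod (p ^ 5)) : IsLog (p : ZMod (p ^ 5)) (PH p h c)
    (12 * c * (p * HH p h 1) - 6 * c ^ 2 * (p ^ 2 * HH p h 2)
      + 4 * c ^ 3 * (p ^ 3 * HH p h 3) - 3 * c ^ 4 * (p ^ 4 * HH p h 4)) := by
  have h1 := IsLog.prod (P5 p) (range h) (fun j => c * rho p (j + 1))
  rw [sum_lg] at h1
  exact h1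

theorem log_PO (p h : ℕ) (c : ZMod (p ^ 5)) : IsLog (p : ZMod (p ^ 5)) (PO p h c)
    (12 * c * (p * HO p h 1) - 6 * c ^ 2 * (p ^ 2 * HO p h 2)
      + 4 * c ^ 3 * (p ^ 3 * HO p h 3) - 3 * c ^ 4 * (p ^ 4 * HO p h 4)) := by
  have h1 := IsLog.prod (P5 p) (range h) (fun j => c * rho p (2 * j + 1))
  rw [sum_lg] at h1
  exact h1

theorem IsLog.cast {R : Type*} [CommRing R] {P u v w : R} (h : IsLog P u v) (e : v = w) : IsLog P u w := by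
  rw [← e]; exact h

theorem log_t (hp : p = 2 * h + 1) (h7 : 7 ≤ p) {t : ZMod (p ^ 5)}
    (ht : t * PH p h (- rho p 2) = PH p h (-1)) :
    IsLog (p : ZMod (p ^ 5)) t (- 6 * ((p : ZMod (p ^ 5)) * HH p h 1) + 7 * rho p 2 ^ 2 * ((p : ZMod (p ^ 5)) ^ 3 * HH p h 3)) := by
  obtain ⟨_, _, _, _, e5, e6⟩ := facts hp h7
  have h2 := two_rho (p := p) h7
  have l1 := log_PH p h (- rho p 2)
  have l2 := log_PH p h (-1)
  rw [← ht] at l2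
  refine (IsLog.of_mul (P5 p) l1 l2).cast ?_
  rw [e6]
  linear_combination (6 * ((p : ZMod (p ^ 5)) * HH p h 1) +
    (2 * rho p 2 ^ 2 - 6 * rho p 2 - 3) * ((p : ZMod (p ^ 5)) ^ 3 * HH p h 3)) * h2 + (-1 + rho p 2 ^ 2) * e5

theorem rho12 (h7 : 7 ≤ p) : 12 * (rho p 2 ^ 2 * rho p 3) = 1 := by
  have h2 := two_rho (p := p) h7
  have h3 := three_rho (p := p) h7
  linear_combination (6 * rho p 2 * rho p 3 + 3 * rho p 3) * h2 + h3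

theorem ring1 (hp : p = 2 * h + 1) (h7 : 7 ≤ p) {b t w S : ZMod (p ^ 5)}
    (hb : b = PF p h 1)
    (ht : t * PH p h (- rho p 2) = PH p h (-1))
    (hw : w * (PF p h 1 * PO p h (-2)) = PF p h (-1) * PO p h 2)
    (hS : 8 * ((p : ZMod (p ^ 5)) ^ 3 * S) =
      - ((p : ZMod (p ^ 5)) ^ 3 * HH p h 3) + 4 * ((p : ZMod (p ^ 5)) * HH p h 1) * ((p : ZMod (p ^ 5)) ^ 3 * HH p h 3)) :
    b ^ 7 * (w ^ 2 + 4 * ((p : ZMod (p ^ 5)) ^ 3 * S)) = t ^ 8 := by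
  obtain ⟨e1, e2, e3, e4, e5, e6⟩ := facts hp h7
  have h2 := two_rho (p := p) h7
  have hP := P5 p
  have o3 := HO3 (p := p) hp h7
  have o1 := HO1 (p := p) hp h7
  have lb : IsLog (p : ZMod (p ^ 5)) b (4 * ((p : ZMod (p ^ 5)) ^ 3 * HH p h 3)) := by
    rw [hb]
    refine (log_PF p h 1).cast ?_
    linear_combination 2 * e1 - 2 * e2 + 4 * e3 - 3 * e4
  have lt := log_t hp h7 ht
  have lw : IsLog (p : ZMod (p ^ 5)) w (-4 * ((p : ZMod (p ^ 5)) ^ 3 * HH p h 3) - 24 * ((p : ZMod (p ^ 5)) * HH p h 1)) := by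
    have l1 := IsLog.mul hP (log_PF p h 1) (log_PO p h (-2))
    have l2 := IsLog.mul hP (log_PF p h (-1)) (log_PO p h 2)
    rw [← hw] at l2
    refine (IsLog.of_mul hP l1 l2).cast ?_
    linear_combination -4 * e1 - 8 * e3 + 8 * o1 + 8 * o3
  have lb7 := lb.pow hP 7
  have lw2 := lw.pow hP 2
  have lt8 := lt.pow hP 8
  obtain ⟨ti, hti⟩ := (lt8.unit hP).exists_right_inv
  have lz : IsLog (p : ZMod (p ^ 5)) (b ^ 7 * w ^ 2 * ti) (12 * (p : ZMod (p ^ 5)) ^ 3 * (rho p 2 * HH p h 3)) := by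
    have l3 := IsLog.mul hP lb7 lw2
    have e : b ^ 7 * w ^ 2 * ti * t ^ 8 = b ^ 7 * w ^ 2 := by
      linear_combination (b ^ 7 * w ^ 2) * hti
    rw [← e] at l3
    refine (IsLog.of_mul hP lt8 l3).cast ?_
    push_cast
    linear_combination (-28 * rho p 2 - 20) * ((p : ZMod (p ^ 5)) ^ 3 * HH p h 3) * h2
  have hz := lz.eq_of hP (rho12 h7)
  have cb := lb7.cube_mul hP
  have ct := lt8.cube_mul hP
  push_cast at cb ct
  have h12 := rho12 (p := p) h7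
  set X := (p : ZMod (p ^ 5)) ^ 3 * HH p h 3 with hX
  set Y := (p : ZMod (p ^ 5)) * HH p h 1 with hY
  -- `P³ b⁷ = P³`
  have cb' : (p : ZMod (p ^ 5)) ^ 3 * b ^ 7 = (p : ZMod (p ^ 5)) ^ 3 := by
    have : 12 * ((p : ZMod (p ^ 5)) ^ 3 * b ^ 7) = 12 * (p : ZMod (p ^ 5)) ^ 3 := by
      rw [hX] at cb
      linear_combination cb + 28 * (p : ZMod (p ^ 5)) * HH p h 3 * hP
    linear_combination (rho p 2 ^ 2 * rho p 3) * this + ((p : ZMod (p ^ 5)) ^ 3 - (p : ZMod (p ^ 5)) ^ 3 * b ^ 7) * h12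
  have ct' : (p : ZMod (p ^ 5)) ^ 3 * t ^ 8 = (p : ZMod (p ^ 5)) ^ 3 - 4 * ((p : ZMod (p ^ 5)) ^ 3 * Y) := by
    have : 12 * ((p : ZMod (p ^ 5)) ^ 3 * t ^ 8) = 12 * ((p : ZMod (p ^ 5)) ^ 3 - 4 * ((p : ZMod (p ^ 5)) ^ 3 * Y)) := by
      rw [hX] at ct
      linear_combination ct + 56 * rho p 2 ^ 2 * (p : ZMod (p ^ 5)) * HH p h 3 * hP
    linear_combination (rho p 2 ^ 2 * rho p 3) * this + ((p : ZMod (p ^ 5)) ^ 3 - 4 * ((p : ZMod (p ^ 5)) ^ 3 * Y) - (p : ZMod (p ^ 5)) ^ 3 * t ^ 8) * h12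
  have hbw : b ^ 7 * w ^ 2 = t ^ 8 + t ^ 8 * (rho p 2 * X) := by
    have : b ^ 7 * w ^ 2 = (b ^ 7 * w ^ 2 * ti) * t ^ 8 := by
      linear_combination (-(b ^ 7 * w ^ 2)) * hti
    rw [this, hz, hX]
    ring
  have hS2 : 4 * ((p : ZMod (p ^ 5)) ^ 3 * S) = - rho p 2 * X * (1 - 4 * Y) := by
    linear_combination (rho p 2) * hS - 4 * ((p : ZMod (p ^ 5)) ^ 3 * S) * h2
  have hS3 : b ^ 7 * (4 * ((p : ZMod (p ^ 5)) ^ 3 * S)) = 4 * ((p : ZMod (p ^ 5)) ^ 3 * S) := by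
    linear_combination 4 * S * cb'
  have hS4 : t ^ 8 * X = X * (1 - 4 * Y) := by
    rw [hX]
    linear_combination (HH p h 3) * ct'
  rw [mul_add, hbw, hS3, hS2]
  linear_combination (rho p 2) * hS4

theorem ring2 (hp : p = 2 * h + 1) (h7 : 7 ≤ p) {b t w S : ZMod (p ^ 5)}
    (hb : b = PH p h (-1))
    (ht : t * PH p h (- rho p 2) = PH p h (-1))
    (hw : w * (PF p h (- rho p 2) * PO p h 1) = PF p h (rho p 2) * PO p h (-1))
    (hS : 8 * ((p : ZMod (p ^ 5)) ^ 3 * S) =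
      - ((p : ZMod (p ^ 5)) ^ 3 * HH p h 3) - 2 * ((p : ZMod (p ^ 5)) * HH p h 1) * ((p : ZMod (p ^ 5)) ^ 3 * HH p h 3)) :
    b ^ 7 * (w ^ 2 + (p : ZMod (p ^ 5)) ^ 3 * S) = t ^ 10 := by
  obtain ⟨e1, e2, e3, e4, e5, e6⟩ := facts hp h7
  have h2 := two_rho (p := p) h7
  have hP := P5 p
  have o3 := HO3 (p := p) hp h7
  have o1 := HO1 (p := p) hp h7
  have lb : IsLog (p : ZMod (p ^ 5)) b (-12 * ((p : ZMod (p ^ 5)) * HH p h 1) + 3 * ((p : ZMod (p ^ 5)) ^ 3 * HH p h 3)) := by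
    rw [hb]
    refine (log_PH p h (-1)).cast ?_
    linear_combination - e5 - 3 * e6
  have lt := log_t hp h7 ht
  have lw : IsLog (p : ZMod (p ^ 5)) w (- ((p : ZMod (p ^ 5)) ^ 3 * HH p h 3) + 12 * ((p : ZMod (p ^ 5)) * HH p h 1)) := by
    have l1 := IsLog.mul hP (log_PF p h (- rho p 2)) (log_PO p h 1)
    have l2 := IsLog.mul hP (log_PF p h (rho p 2)) (log_PO p h (-1))
    rw [← hw] at l2
    refine (IsLog.of_mul hP l1 l2).cast ?_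
    linear_combination (4 * rho p 2) * e1 + 8 * rho p 2 ^ 3 * e3 - 4 * o1 - o3
      + 2 * ((p : ZMod (p ^ 5)) ^ 3 * HH p h 3) * h2
  have lb7 := lb.pow hP 7
  have lw2 := lw.pow hP 2
  have lt10 := lt.pow hP 10
  obtain ⟨ti, hti⟩ := (lt10.unit hP).exists_right_inv
  have lz : IsLog (p : ZMod (p ^ 5)) (b ^ 7 * w ^ 2 * ti) (12 * (p : ZMod (p ^ 5)) ^ 3 * (rho p 2 ^ 3 * HH p h 3)) := by
    have l3 := IsLog.mul hP lb7 lw2
    have e : b ^ 7 * w ^ 2 * ti * t ^ 10 = b ^ 7 * w ^ 2 := by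
      linear_combination (b ^ 7 * w ^ 2) * hti
    rw [← e] at l3
    refine (IsLog.of_mul hP lt10 l3).cast ?_
    push_cast
    linear_combination (-6 * rho p 2 ^ 2 - 38 * rho p 2 - 19) * ((p : ZMod (p ^ 5)) ^ 3 * HH p h 3) * h2
  have hz := lz.eq_of hP (rho12 h7)
  have cb := lb7.cube_mul hP
  have ct := lt10.cube_mul hP
  push_cast at cb ct
  have h12 := rho12 (p := p) h7
  set X := (p : ZMod (p ^ 5)) ^ 3 * HH p h 3 with hX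
  set Y := (p : ZMod (p ^ 5)) * HH p h 1 with hY
  have cb' : (p : ZMod (p ^ 5)) ^ 3 * b ^ 7 = (p : ZMod (p ^ 5)) ^ 3 - 7 * ((p : ZMod (p ^ 5)) ^ 3 * Y) := by
    have : 12 * ((p : ZMod (p ^ 5)) ^ 3 * b ^ 7) = 12 * ((p : ZMod (p ^ 5)) ^ 3 - 7 * ((p : ZMod (p ^ 5)) ^ 3 * Y)) := by
      rw [hX] at cb
      linear_combination cb + 21 * (p : ZMod (p ^ 5)) * HH p h 3 * hP
    linear_combination (rho p 2 ^ 2 * rho p 3) * this + ((p : ZMod (p ^ 5)) ^ 3 - 7 * ((p : ZMod (p ^ 5)) ^ 3 * Y) - (p : ZMod (p ^ 5)) ^ 3 * b ^ 7) * h12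
  have ct' : (p : ZMod (p ^ 5)) ^ 3 * t ^ 10 = (p : ZMod (p ^ 5)) ^ 3 - 5 * ((p : ZMod (p ^ 5)) ^ 3 * Y) := by
    have : 12 * ((p : ZMod (p ^ 5)) ^ 3 * t ^ 10) = 12 * ((p : ZMod (p ^ 5)) ^ 3 - 5 * ((p : ZMod (p ^ 5)) ^ 3 * Y)) := by
      rw [hX] at ct
      linear_combination ct + 70 * rho p 2 ^ 2 * (p : ZMod (p ^ 5)) * HH p h 3 * hP
    linear_combination (rho p 2 ^ 2 * rho p 3) * this + ((p : ZMod (p ^ 5)) ^ 3 - 5 * ((p : ZMod (p ^ 5)) ^ 3 * Y) - (p : ZMod (p ^ 5)) ^ 3 * t ^ 10) * h12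
  have hbw : b ^ 7 * w ^ 2 = t ^ 10 + t ^ 10 * (rho p 2 ^ 3 * X) := by
    have : b ^ 7 * w ^ 2 = (b ^ 7 * w ^ 2 * ti) * t ^ 10 := by
      linear_combination (-(b ^ 7 * w ^ 2)) * hti
    rw [this, hz, hX]
    ring
  have h8 : 8 * rho p 2 ^ 3 = 1 := by
    linear_combination (4 * rho p 2 ^ 2 + 2 * rho p 2 + 1) * h2
  have hS2 : (p : ZMod (p ^ 5)) ^ 3 * S = - rho p 2 ^ 3 * X * (1 + 2 * Y) := by
    linear_combination (rho p 2 ^ 3) * hS - ((p : ZMod (p ^ 5)) ^ 3 * S) * h8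
  have hS3 : b ^ 7 * ((p : ZMod (p ^ 5)) ^ 3 * S) = (1 - 7 * Y) * ((p : ZMod (p ^ 5)) ^ 3 * S) := by
    linear_combination S * cb'
  have hS4 : t ^ 10 * X = X * (1 - 5 * Y) := by
    rw [hX]
    linear_combination (HH p h 3) * ct'
  have hXY : X * Y * Y = 0 := by
    rw [hX, hY]
    linear_combination (HH p h 3 * HH p h 1 ^ 2) * hP
  rw [mul_add, hbw, hS3, hS2]
  linear_combination (rho p 2 ^ 3) * hS4 + (14 * rho p 2 ^ 3) * hXY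

end Pool.Agent.H54.SC
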