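import Mathlib
import Pool.Graph.R_seed8.R440.Loc
import Pool.Agent.H54.SC.Ring2

/-!
# From `p`-integral rationals to `ZMod (p ^ 5)`
-/

set_option autoImplicit false

namespace Pool.Agent.H54.SC

open Finset
open Pool.Agent.R440 (Zp mem_Zp_def natCast_mem_Zp intCast_mem_Zp inv_nat_mem_Zp)

variable (p : ℕ) [hpf : Fact p.Prime]

@[simp, norm_cast]
theorem Zp_coe_ofNat (n : ℕ) [n.AtLeastTwo] : ((OfNat.ofNat n : Zp p) : ℚ) = OfNat.ofNat n := rfl

/-- embedding in the `p`-adic integers -/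
noncomputable def iota : Zp p →+* ℤ_[p] where
  toFun q := ⟨((q : ℚ) : ℚ_[p]), by
    rw [Padic.eq_padicNorm]
    exact_mod_cast q.2⟩
  map_one' := by
    apply Subtype.ext
    simp
  map_mul' x y := by
    apply Subtype.ext
    have h : (((x * y : Zp p) : ℚ) : ℚ_[p]) = ((x : ℚ) : ℚ_[p]) * ((y : ℚ) : ℚ_[p]) := by
      rw [Subring.coe_mul, Rat.cast_mul]
    exact h
  map_zero' := by
    apply Subtype.ext
    simp
  map_add' x y := by
    apply Subtype.ext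
    have h : (((x + y : Zp p) : ℚ) : ℚ_[p]) = ((x : ℚ) : ℚ_[p]) + ((y : ℚ) : ℚ_[p]) := by
      rw [Subring.coe_add, Rat.cast_add]
    exact h

/-- reduction modulo `p ^ 5` -/
noncomputable def psi : Zp p →+* ZMod (p ^ 5) := (PadicInt.toZModPow 5).comp (iota p)

theorem psi_natCast (n : ℕ) : psi p (n : Zp p) = n := map_natCast _ _

theorem mem_of_psi {q : Zp p} (h : psi p q = 0) : (q : ℚ) / (p : ℚ) ^ 5 ∈ Zp p := by
  have h1 : iota p q ∈ RingHom.ker (PadicInt.toZModPow 5 : ℤ_[p] →+* ZMod (p ^ 5)) := h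
  rw [PadicInt.ker_toZModPow, ← PadicInt.norm_le_pow_iff_mem_span_pow] at h1
  have h2 : ‖iota p q‖ = padicNorm p (q : ℚ) := by
    rw [PadicInt.norm_def]
    exact Padic.eq_padicNorm _
  rw [h2] at h1
  rw [mem_Zp_def, padicNorm.div]
  have hp0 : (0 : ℚ) < p := by exact_mod_cast hpf.out.pos
  have h3 : padicNorm p ((p : ℚ) ^ 5) = (p : ℚ) ^ (-5 : ℤ) := by
    have h1 := padicNorm.padicNorm_p hpf.out.one_lt
    simp only [pow_succ, pow_zero, one_mul, padicNorm.mul, h1]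
    rw [show (-5 : ℤ) = -((5 : ℕ) : ℤ) by norm_num, zpow_neg, zpow_natCast]
    rw [← inv_pow]
    ring
  rw [h3]
  have h4 : padicNorm p (q : ℚ) ≤ (p : ℚ) ^ (-5 : ℤ) := by
    have : ((padicNorm p (q : ℚ) : ℚ) : ℝ) ≤ (((p : ℚ) ^ (-5 : ℤ) : ℚ) : ℝ) := by
      push_cast
      exact_mod_cast h1
    exact_mod_cast this
  rw [div_le_one (by positivity)]
  exact h4

theorem den_of_mem {q : ℚ} (h : q ∈ Zp p) : ¬ p ∣ q.den := by
  intro hd
  have hq0 : q ≠ 0 := by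
    rintro rfl
    have : p ∣ 1 := by simpa using hd
    exact hpf.out.one_lt.ne' (Nat.dvd_one.mp this)
  have h1 := (Pool.Agent.R440.mem_Zp_iff hq0).mp h
  have hnum : ¬ (p : ℤ) ∣ q.num := by
    intro hc
    have h2 : p ∣ q.num.natAbs := Int.natCast_dvd.mp hc
    have h3 := Nat.Coprime.eq_one_of_dvd (Nat.Coprime.coprime_dvd_left h2 q.reduced) hd
    exact hpf.out.one_lt.ne' h3
  have h4 : padicValInt p q.num = 0 := padicValInt.eq_zero_of_not_dvd hnum
  have h5 : 1 ≤ padicValNat p q.den := one_le_padicValNat_of_dvd q.den_nz hd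
  rw [padicValRat_def, h4] at h1
  omega

/-- the inverse of an integer prime to `p` -/
theorem inv_int_mem {z : ℤ} (h : ¬ (p : ℤ) ∣ z) : ((z : ℚ))⁻¹ ∈ Zp p := by
  have h1 : ¬ p ∣ z.natAbs := fun hc => h (Int.natCast_dvd.mpr hc)
  have h2 := inv_nat_mem_Zp (p := p) h1
  rcases Int.natAbs_eq z with h3 | h3
  · rw [h3]
    simpa using h2
  · rw [h3]
    have := (Zp p).neg_mem h2
    have e : (((-(z.natAbs : ℤ) : ℤ) : ℚ))⁻¹ = -(1 / ((z.natAbs : ℕ) : ℚ)) := by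
      rw [Int.cast_neg, Int.cast_natCast, inv_neg, one_div]
    rw [e]
    exact this

theorem div_int_mem {q : ℚ} {z : ℤ} (hq : q ∈ Zp p) (h : ¬ (p : ℤ) ∣ z) : q / (z : ℚ) ∈ Zp p := by
  rw [div_eq_mul_inv]
  exact (Zp p).mul_mem hq (inv_int_mem p h)

end Pool.Agent.H54.SC
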