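import Mathlib
import Pool.Graph.R_seed8.R440.D518.A
import Pool.Graph.R_seed8.R440.D518.G

/-!
# Exact evaluations of the two truncated sums
-/

set_option autoImplicit false

namespace Pool.Agent.H54.SC

open Finset Nat

/-- first family, `p = 2 h + 1` -/
noncomputable def V1 (p : ℚ) : ℕ → ℚ
  | 0 => 1 / ((1 + p) * (1 - 2 * p))
  | (k + 1) => V1 p k * ((2 * (k : ℚ) + 1 + 2 * p) * (2 * (k : ℚ) + 1 - p) * (2 * (k : ℚ) + 1 + 1 - p)) /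
      ((2 * (k : ℚ) + 1 + 2 - 2 * p) * (2 * (k : ℚ) + 1 + 2 + p) * (2 * (k : ℚ) + 1 + 1 + p))

/-- second family -/
noncomputable def V2 (p : ℚ) : ℕ → ℚ
  | 0 => 2 / ((2 - p) * (1 + p))
  | (k + 1) => V2 p k * ((2 * (2 * (k : ℚ) + 1) + p) * (2 * (2 * (k : ℚ) + 1 + 1) + p) * (2 * (k : ℚ) + 1 - p)) /
      ((2 * (2 * (k : ℚ) + 1 + 1) - p) * (2 * (2 * (k : ℚ) + 1 + 2) - p) * (2 * (k : ℚ) + 1 + 2 + p))

/-- `B = C(2p-1,p-1)` -/
def Bn (h : ℕ) : ℕ := (4 * h + 1).choose (2 * h)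

theorem Bn_eq (h : ℕ) : (Bn h : ℚ) = ((4 * h + 1)! : ℚ) / (((2 * h)! : ℚ) * ((2 * h + 1)! : ℚ)) := by
  unfold Bn
  rw [Nat.cast_choose ℚ (by omega : 2 * h ≤ 4 * h + 1), show 4 * h + 1 - 2 * h = 2 * h + 1 by omega]

open Pool.Agent.R440 Pool.Agent.R440.D518

theorem T_zero (h : ℕ) : T 0 (2 * h) = -2 * (2 * (h : ℚ) + 1) * (Bn h : ℚ) ^ 2 * V1 (2 * (h : ℚ) + 1) 0 := by
  unfold T V1
  rw [Bn_eq]
  rw [show 6 * 0 + 2 * (2 * h) + 2 = 4 * h + 1 + 1 by ring, show 2 * 0 + 2 * (2 * h) = 4 * h by ring,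
    show 3 * 0 + 2 * h + 1 = 2 * h + 1 by ring, show 0 + 2 * h = 2 * h by ring,
    show 2 * h + 2 = 2 * h + 1 + 1 by ring]
  rw [Nat.factorial_succ (4 * h + 1), Nat.factorial_succ (4 * h), Nat.factorial_succ (2 * h + 1),
    Nat.factorial_succ (2 * h)]
  have z1 : ((4 * h)! : ℚ) ≠ 0 := by positivity
  have z2 : ((2 * h)! : ℚ) ≠ 0 := by positivity
  have z3 : (1 - 2 * (2 * (h : ℚ) + 1)) ≠ 0 := by
    have : (0 : ℚ) ≤ h := Nat.cast_nonneg h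
    intro h0
    linarith
  have z4 : (4 * (h : ℚ) + 1) ≠ 0 := by positivity
  have z5 : (1 + (2 * (h : ℚ) + 1)) ≠ 0 := by positivity
  have z6 : (2 * (h : ℚ) + 1) ≠ 0 := by positivity
  push_cast
  generalize ((4 * h)! : ℚ) = A1 at *
  generalize ((2 * h)! : ℚ) = A2 at *
  have z7 : (2 * (h : ℚ) + 1 + 1) ≠ 0 := by positivity
  rw [show (1 - 2 * (2 * (h : ℚ) + 1)) = - (4 * h + 1) by ring]
  field_simp
  ring

theorem T_step (k m : ℕ) : T (k + 1) m * ((2 * (k : ℚ) + 2 * m + 3) * (4 * k + m + 6) * (4 * k + m + 5)) =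
    T k (m + 2) * ((6 * (k : ℚ) + 2 * m + 7) * (m + 2) * (m + 1)) := by
  unfold T
  rw [show 6 * (k + 1) + 2 * m + 2 = 6 * k + 2 * m + 6 + 1 + 1 by ring,
    show 2 * (k + 1) + 2 * m = 2 * k + 2 * m + 2 by ring,
    show 3 * (k + 1) + m + 1 = 3 * k + m + 3 + 1 by ring,
    show k + 1 + m = k + m + 1 by ring, show 4 * (k + 1) + m + 2 = 4 * k + m + 4 + 1 + 1 by ring,
    show 6 * k + 2 * (m + 2) + 2 = 6 * k + 2 * m + 6 by ring,
    show 2 * k + 2 * (m + 2) = 2 * k + 2 * m + 2 + 1 + 1 by ring,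
    show 3 * k + (m + 2) + 1 = 3 * k + m + 3 by ring, show k + (m + 2) = k + m + 1 + 1 by ring,
    show 4 * k + (m + 2) + 2 = 4 * k + m + 4 by ring, show m + 2 = m + 1 + 1 by ring]
  simp only [Nat.factorial_succ (6 * k + 2 * m + 6 + 1), Nat.factorial_succ (6 * k + 2 * m + 6),
    Nat.factorial_succ (3 * k + m + 3), Nat.factorial_succ (4 * k + m + 4 + 1),
    Nat.factorial_succ (4 * k + m + 4), Nat.factorial_succ (2 * k + 2 * m + 2 + 1),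
    Nat.factorial_succ (2 * k + 2 * m + 2), Nat.factorial_succ (k + m + 1),
    Nat.factorial_succ (m + 1), Nat.factorial_succ m]
  have z1 : ((6 * k + 2 * m + 6)! : ℚ) ≠ 0 := by positivity
  have z2 : ((2 * k + 2 * m + 2)! : ℚ) ≠ 0 := by positivity
  have z3 : ((3 * k + m + 3)! : ℚ) ≠ 0 := by positivity
  have z4 : ((k + m + 1)! : ℚ) ≠ 0 := by positivity
  have z5 : ((4 * k + m + 4)! : ℚ) ≠ 0 := by positivity
  have z6 : (m ! : ℚ) ≠ 0 := by positivity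
  push_cast
  generalize ((6 * k + 2 * m + 6)! : ℚ) = A1 at *
  generalize ((2 * k + 2 * m + 2)! : ℚ) = A2 at *
  generalize ((3 * k + m + 3)! : ℚ) = A3 at *
  generalize ((k + m + 1)! : ℚ) = A4 at *
  generalize ((4 * k + m + 4)! : ℚ) = A5 at *
  generalize (m ! : ℚ) = A6 at *
  have y1 : (3 * (k : ℚ) + m + 3 + 1) ≠ 0 := by positivity
  have y2 : (4 * (k : ℚ) + m + 4 + 1) ≠ 0 := by positivity
  have y3 : (4 * (k : ℚ) + m + 4 + 1 + 1) ≠ 0 := by positivity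
  have y4 : ((k : ℚ) + m + 1 + 1) ≠ 0 := by positivity
  have y5 : ((m : ℚ) + 1 + 1) ≠ 0 := by positivity
  have y6 : ((m : ℚ) + 1) ≠ 0 := by positivity
  field_simp
  ring

theorem T_eq (h k : ℕ) (hk : k ≤ h) : T k (2 * (h - k)) =
    (-1) ^ k * (-2 * (2 * (h : ℚ) + 1) * (Bn h : ℚ) ^ 2) * V1 (2 * (h : ℚ) + 1) k := by
  induction k with
  | zero =>
    rw [Nat.sub_zero, T_zero]; ring
  | succ k ih =>
    obtain ⟨m, rfl⟩ : ∃ m, h = k + 1 + m := ⟨h - (k + 1), by omega⟩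
    have h1 := T_step k (2 * m)
    have ih' := ih (by omega)
    rw [show k + 1 + m - k = m + 1 by omega, show 2 * (m + 1) = 2 * m + 2 by ring] at ih'
    rw [show k + 1 + m - (k + 1) = m by omega]
    rw [ih'] at h1
    have e1 : (2 * (k : ℚ) + 2 * ((2 * m : ℕ) : ℚ) + 3) ≠ 0 := by positivity
    have e2 : (4 * (k : ℚ) + ((2 * m : ℕ) : ℚ) + 6) ≠ 0 := by positivity
    have e3 : (4 * (k : ℚ) + ((2 * m : ℕ) : ℚ) + 5) ≠ 0 := by positivity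
    have h2 : T (k + 1) (2 * m) = (-1) ^ k * (-2 * (2 * ((k + 1 + m : ℕ) : ℚ) + 1) * (Bn (k + 1 + m) : ℚ) ^ 2)
        * V1 (2 * ((k + 1 + m : ℕ) : ℚ) + 1) k *
        ((6 * (k : ℚ) + 2 * ((2 * m : ℕ) : ℚ) + 7) * (((2 * m : ℕ) : ℚ) + 2) * (((2 * m : ℕ) : ℚ) + 1)) /
        ((2 * (k : ℚ) + 2 * ((2 * m : ℕ) : ℚ) + 3) * (4 * k + ((2 * m : ℕ) : ℚ) + 6) * (4 * k + ((2 * m : ℕ) : ℚ) + 5)) := by
      rw [eq_div_iff (mul_ne_zero (mul_ne_zero e1 e2) e3)]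
      exact h1
    rw [h2, V1]
    have g1 : 2 * (k : ℚ) + 1 + 2 - 2 * (2 * ((k + 1 + m : ℕ) : ℚ) + 1) = - (2 * (k : ℚ) + 2 * ((2 * m : ℕ) : ℚ) + 3) := by
      push_cast; ring
    have g2 : 2 * (k : ℚ) + 1 + 2 + (2 * ((k + 1 + m : ℕ) : ℚ) + 1) = 4 * k + ((2 * m : ℕ) : ℚ) + 6 := by
      push_cast; ring
    have g3 : 2 * (k : ℚ) + 1 + 1 + (2 * ((k + 1 + m : ℕ) : ℚ) + 1) = 4 * k + ((2 * m : ℕ) : ℚ) + 5 := by
      push_cast; ring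
    have g4 : 2 * (k : ℚ) + 1 + 2 * (2 * ((k + 1 + m : ℕ) : ℚ) + 1) = 6 * k + 2 * ((2 * m : ℕ) : ℚ) + 7 := by
      push_cast; ring
    have g5 : 2 * (k : ℚ) + 1 - (2 * ((k + 1 + m : ℕ) : ℚ) + 1) = - (((2 * m : ℕ) : ℚ) + 2) := by
      push_cast; ring
    have g6 : 2 * (k : ℚ) + 1 + 1 - (2 * ((k + 1 + m : ℕ) : ℚ) + 1) = - (((2 * m : ℕ) : ℚ) + 1) := by
      push_cast; ring
    rw [g1, g2, g3, g4, g5, g6, pow_succ (-1 : ℚ) k]
    generalize V1 (2 * ((k + 1 + m : ℕ) : ℚ) + 1) k = A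
    generalize (6 * (k : ℚ) + 2 * ((2 * m : ℕ) : ℚ) + 7) = A1
    generalize (2 * (k : ℚ) + 2 * ((2 * m : ℕ) : ℚ) + 3) = A2 at *
    generalize (4 * (k : ℚ) + ((2 * m : ℕ) : ℚ) + 6) = A3 at *
    generalize (4 * (k : ℚ) + ((2 * m : ℕ) : ℚ) + 5) = A4 at *
    field_simp
    try ring

/-- the first sum -/
theorem S1_exact (h : ℕ) :
    ∑ k ∈ range (2 * h + 1), (21 * (k : ℚ) ^ 3 + 22 * (k : ℚ) ^ 2 + 8 * k + 1) / 256 ^ k *
      ((2 * k).choose k : ℚ) ^ 7 =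
    4 * (2 * (h : ℚ) + 1) ^ 6 * (Bn h : ℚ) ^ 7 / (2 ^ (2 * h)) ^ 8 *
      ∑ k ∈ range (h + 1), (2 * (k : ℚ) + 1) * V1 (2 * (h : ℚ) + 1) k ^ 2 := by
  have h1 := sum_s (2 * h + 1)
  have h2 : ∑ k ∈ range (2 * h + 1), (21 * (k : ℚ) ^ 3 + 22 * (k : ℚ) ^ 2 + 8 * k + 1) / 256 ^ k *
      ((2 * k).choose k : ℚ) ^ 7 = 2 * ∑ j ∈ range (2 * h + 1), s j := by
    rw [Finset.mul_sum]
    refine sum_congr rfl fun j _ => ?_
    unfold s
    have : (256 : ℚ) ^ j ≠ 0 := by positivity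
    field_simp
  have h3 : ∑ k ∈ range (2 * h + 1), F (2 * h + 1) k = ∑ k ∈ range (h + 1), F (2 * h + 1) k := by
    rw [show 2 * h + 1 = (h + 1) + h by ring, sum_range_add]
    have : ∑ x ∈ range h, F (h + 1 + h) (h + 1 + x) = 0 := by
      refine sum_eq_zero fun x _ => ?_
      unfold F
      rw [rf_neg (by push_cast; omega : ((h + 1 + h : ℕ) : ℤ) - 2 * ((h + 1 + x : ℕ) : ℤ) - 1 < 0)]
      ring
    rw [this, add_zero]
  rw [h2, h1, h3, Finset.mul_sum, Finset.mul_sum]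
  refine sum_congr rfl fun k hk => ?_
  have hk' := Finset.mem_range.mp hk
  have h4 := F_eq k (2 * (h - k))
  rw [show 2 * k + 2 * (h - k) = 2 * h by omega, show 2 * k + 1 + 2 * (h - k) = 2 * h + 1 by omega] at h4
  have h5 : t k (2 * (h - k)) = (2 * (h : ℚ) + 1) * (2 * (k : ℚ) + 1) * T k (2 * (h - k)) ^ 2 / 16 := by
    unfold t
    rw [show 2 * k + 1 + 2 * (h - k) = 2 * h + 1 by omega]
    push_cast
    ring
  rw [h5, T_eq h k (by omega)] at h4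
  have h6 : ((2 * (2 * h + 1)).choose (2 * h + 1) : ℚ) = 2 * Bn h := by
    have e : (2 * (2 * h + 1)).choose (2 * h + 1) = 2 * (4 * h + 1).choose (2 * h) := by
      have := Nat.choose_symm_half (2 * h)
      rw [show 2 * (2 * h + 1) = 4 * h + 1 + 1 by ring, Nat.choose_succ_succ, Nat.succ_eq_add_one]
      rw [show 2 * (2 * h) + 1 = 4 * h + 1 by ring] at this
      omega
    rw [e]
    unfold Bn
    push_cast
    ring
  rw [h6] at h4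
  have h7 : (256 : ℚ) ^ (2 * h) = (2 ^ (2 * h)) ^ 8 := by
    calc (256 : ℚ) ^ (2 * h) = (2 ^ 8) ^ (2 * h) := by norm_num
      _ = (2 ^ (2 * h)) ^ 8 := by rw [← pow_mul, ← pow_mul, mul_comm]
  rw [h7] at h4
  have h8 : ((2 : ℚ) ^ (2 * h)) ^ 8 ≠ 0 := by positivity
  have h9 : ((-1 : ℚ) ^ k) ^ 2 = 1 := by rw [← pow_mul, mul_comm, pow_mul]; norm_num
  generalize V1 (2 * (h : ℚ) + 1) k = A at *
  generalize ((2 : ℚ) ^ (2 * h)) ^ 8 = A1 at *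
  generalize (Bn h : ℚ) = A2 at *
  generalize (-1 : ℚ) ^ k = A3 at *
  rw [div_mul_eq_mul_div, eq_div_iff h8]
  push_cast at h4
  have h10 : F (2 * h + 1) k * A1 = (2 * (h : ℚ) + 1) ^ 3 * (2 * A2) ^ 3 *
    ((2 * (h : ℚ) + 1) * (2 * (k : ℚ) + 1) * (A3 * (-2 * (2 * (h : ℚ) + 1) * A2 ^ 2) * A) ^ 2 / 16) := by
    rw [mul_comm]; exact h4
  linear_combination 2 * h10 + (4 * (2 * (h : ℚ) + 1) ^ 6 * A2 ^ 7 * (2 * (k : ℚ) + 1) * A ^ 2) * h9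

end Pool.Agent.H54.SC
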