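import Mathlib
import Pool.Agent.H54.SC.Exact

/-!
# Exact evaluation of the second truncated sum
-/

set_option autoImplicit false

namespace Pool.Agent.H54.SC

open Finset Nat

open Pool.Agent.R440 Pool.Agent.R440.D518

theorem odd_ne (a b : ℕ) (c : ℤ) (hc : c % 2 = 1) : (2 * (a : ℚ) - 2 * b + c) ≠ 0 := by
  intro h
  have h1 : (2 * (a : ℤ) - 2 * b + c) = 0 := by exact_mod_cast h
  omega

theorem U_zero (h : ℕ) : Gou.U 0 h = -((2 * (h : ℚ) + 1) * ((2 * h).choose h : ℚ) ^ 2 / 16 ^ h) *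
    V2 (2 * (h : ℚ) + 1) 0 := by
  unfold Gou.U V2
  have e1 : hg (3 * ((0 : ℕ) : ℤ) + h + 1) = ((h : ℚ) + 1 / 2) * hg (h : ℤ) := by
    rw [← Int.cast_natCast (R := ℚ), ← hg_step]
    congr 1; push_cast; ring
  have e2 : hg (h : ℤ) = ((h : ℚ) - 1 / 2) * hg ((h : ℤ) - ((0 : ℕ) : ℤ) - 1) := by
    have := hg_step ((h : ℤ) - 1)
    rw [show (h : ℤ) - 1 + 1 = h by ring] at this
    rw [this]
    push_cast
    rw [show (h : ℤ) - 0 - 1 = (h : ℤ) - 1 by ring]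
    ring
  have z0 : ((h : ℚ) - 1 / 2) ≠ 0 := by
    have := odd_ne h 0 (-1) (by norm_num)
    intro h0
    apply this
    push_cast
    linear_combination 2 * h0
  have e3 : hg ((h : ℤ) - ((0 : ℕ) : ℤ) - 1) = hg (h : ℤ) / ((h : ℚ) - 1 / 2) := by
    rw [eq_div_iff z0, e2]; ring
  rw [e1, e3, hg_nat, choose_two_mul, show 2 * 0 + h + 1 = h + 1 by ring, Nat.factorial_succ]
  have h16 : (16 : ℚ) ^ h = (4 ^ h) ^ 2 := by
    rw [← pow_mul, mul_comm, pow_mul]; norm_num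
  rw [h16]
  have z1 : (h ! : ℚ) ≠ 0 := by positivity
  have z2 : ((2 * h)! : ℚ) ≠ 0 := by positivity
  have z3 : (4 : ℚ) ^ h ≠ 0 := by positivity
  have z4 : ((h : ℚ) + 1) ≠ 0 := by positivity
  have z5 : (2 - (2 * (h : ℚ) + 1)) ≠ 0 := by
    intro h0; apply z0; linear_combination (-1 / 2 : ℚ) * h0
  rw [show (2 - (2 * (h : ℚ) + 1)) = (-2) * ((h : ℚ) - 1 / 2) by ring,
    show (1 + (2 * (h : ℚ) + 1)) = 2 * ((h : ℚ) + 1) by ring]
  push_cast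
  generalize (h ! : ℚ) = A1 at *
  generalize ((2 * h)! : ℚ) = A2 at *
  generalize (4 : ℚ) ^ h = A3 at *
  set y := (h : ℚ) - 1 / 2 with hy
  have : (h : ℚ) = y + 1 / 2 := by rw [hy]; ring
  rw [this] at z4 ⊢
  clear_value y
  field_simp

theorem U_step (k m : ℕ) : Gou.U (k + 1) m * (((m : ℚ) - k - 1 / 2) * ((m : ℚ) - k - 3 / 2) * (2 * k + m + 3)) =
    Gou.U k (m + 1) * ((3 * (k : ℚ) + m + 5 / 2) * (3 * (k : ℚ) + m + 7 / 2) * (m + 1)) := by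
  unfold Gou.U
  have e1 : hg (3 * ((k + 1 : ℕ) : ℤ) + m + 1) = ((3 * (k : ℚ) + m + 7 / 2) * (3 * (k : ℚ) + m + 5 / 2)) *
      hg (3 * (k : ℤ) + (m + 1 : ℕ) + 1) := by
    rw [show 3 * ((k + 1 : ℕ) : ℤ) + m + 1 = 3 * (k : ℤ) + (m + 1 : ℕ) + 1 + 1 + 1 by push_cast; ring,
      hg_step, hg_step]
    push_cast
    ring
  have e2 : hg (((m + 1 : ℕ) : ℤ) - k - 1) = (((m : ℚ) - k - 1 / 2) * ((m : ℚ) - k - 3 / 2)) *
      hg ((m : ℤ) - (k + 1 : ℕ) - 1) := by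
    rw [show ((m + 1 : ℕ) : ℤ) - k - 1 = (m : ℤ) - (k + 1 : ℕ) - 1 + 1 + 1 by push_cast; ring,
      hg_step, hg_step]
    push_cast
    ring
  rw [e1, e2, show 2 * (k + 1) + m + 1 = 2 * k + m + 2 + 1 by ring,
    show 2 * k + (m + 1) + 1 = 2 * k + m + 2 by ring, Nat.factorial_succ (2 * k + m + 2),
    Nat.factorial_succ m]
  have z1 : ((2 * k + m + 2)! : ℚ) ≠ 0 := by positivity
  have z2 : (m ! : ℚ) ≠ 0 := by positivity
  have z3 : (2 * (k : ℚ) + m + 3) ≠ 0 := by positivity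
  have z4 : ((m : ℚ) + 1) ≠ 0 := by positivity
  have z5 : (2 * (k : ℚ) + m + 2 + 1) ≠ 0 := by positivity
  push_cast
  generalize ((2 * k + m + 2)! : ℚ) = A1 at *
  generalize (m ! : ℚ) = A2 at *
  generalize hg (3 * (k : ℤ) + ((m : ℤ) + 1) + 1) = A3
  generalize hg ((m : ℤ) - ((k : ℤ) + 1) - 1) = A4
  field_simp
  ring

theorem U_eq (h k : ℕ) (hk : k ≤ h) : Gou.U k (h - k) =
    (-1) ^ k * (-((2 * (h : ℚ) + 1) * ((2 * h).choose h : ℚ) ^ 2 / 16 ^ h)) * V2 (2 * (h : ℚ) + 1) k := by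
  induction k with
  | zero => rw [Nat.sub_zero, U_zero]; ring
  | succ k ih =>
    obtain ⟨m, rfl⟩ : ∃ m, h = k + 1 + m := ⟨h - (k + 1), by omega⟩
    have h1 := U_step k m
    have ih' := ih (by omega)
    rw [show k + 1 + m - k = m + 1 by omega] at ih'
    rw [show k + 1 + m - (k + 1) = m by omega]
    rw [ih'] at h1
    have e1 : ((m : ℚ) - k - 1 / 2) ≠ 0 := by
      have := odd_ne m k (-1) (by norm_num)
      intro h0; apply this; push_cast; linear_combination 2 * h0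
    have e2 : ((m : ℚ) - k - 3 / 2) ≠ 0 := by
      have := odd_ne m k (-3) (by norm_num)
      intro h0; apply this; push_cast; linear_combination 2 * h0
    have e3 : (2 * (k : ℚ) + m + 3) ≠ 0 := by positivity
    have h2 := (eq_div_iff (mul_ne_zero (mul_ne_zero e1 e2) e3)).mpr h1
    rw [h2, V2]
    have g1 : 2 * (2 * (k : ℚ) + 1 + 1) - (2 * ((k + 1 + m : ℕ) : ℚ) + 1) = (-2) * ((m : ℚ) - k - 1 / 2) := by
      push_cast; ring
    have g2 : 2 * (2 * (k : ℚ) + 1 + 2) - (2 * ((k + 1 + m : ℕ) : ℚ) + 1) = (-2) * ((m : ℚ) - k - 3 / 2) := by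
      push_cast; ring
    have g3 : 2 * (k : ℚ) + 1 + 2 + (2 * ((k + 1 + m : ℕ) : ℚ) + 1) = 2 * (2 * (k : ℚ) + m + 3) := by
      push_cast; ring
    have g4 : 2 * (2 * (k : ℚ) + 1) + (2 * ((k + 1 + m : ℕ) : ℚ) + 1) = 2 * (3 * (k : ℚ) + m + 5 / 2) := by
      push_cast; ring
    have g5 : 2 * (2 * (k : ℚ) + 1 + 1) + (2 * ((k + 1 + m : ℕ) : ℚ) + 1) = 2 * (3 * (k : ℚ) + m + 7 / 2) := by
      push_cast; ring
    have g6 : 2 * (k : ℚ) + 1 - (2 * ((k + 1 + m : ℕ) : ℚ) + 1) = (-2) * ((m : ℚ) + 1) := by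
      push_cast; ring
    rw [g1, g2, g3, g4, g5, g6, pow_succ (-1 : ℚ) k]
    generalize ((2 * ((k + 1 + m : ℕ) : ℚ) + 1) * (((2 * (k + 1 + m)).choose (k + 1 + m) : ℕ) : ℚ) ^ 2 /
      16 ^ (k + 1 + m)) = B
    generalize V2 (2 * ((k + 1 + m : ℕ) : ℚ) + 1) k = A
    generalize ((m : ℚ) - k - 1 / 2) = A1 at *
    generalize ((m : ℚ) - k - 3 / 2) = A2 at *
    generalize (2 * (k : ℚ) + m + 3) = A3 at *
    generalize (3 * (k : ℚ) + m + 5 / 2) = A4 at *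
    generalize (3 * (k : ℚ) + m + 7 / 2) = A5 at *
    field_simp

/-- the second sum -/
theorem S2_exact (h : ℕ) :
    ∑ k ∈ range (h + 1), (168 * (k : ℚ) ^ 3 + 76 * (k : ℚ) ^ 2 + 14 * k + 1) / 2 ^ (20 * k) *
      ((2 * k).choose k : ℚ) ^ 7 =
    (2 * (h : ℚ) + 1) ^ 6 * ((2 * h).choose h : ℚ) ^ 7 / (2 ^ (2 * h)) ^ 10 *
      ∑ k ∈ range (h + 1), (2 * (k : ℚ) + 1) * V2 (2 * (h : ℚ) + 1) k ^ 2 := by
  have h1 := Gou.closed h
  have h2 : ∑ k ∈ range (h + 1), (168 * (k : ℚ) ^ 3 + 76 * (k : ℚ) ^ 2 + 14 * k + 1) / 2 ^ (20 * k) *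
      ((2 * k).choose k : ℚ) ^ 7 = 512 * ∑ j ∈ range (h + 1), Gou.s j := by
    rw [Finset.mul_sum]
    refine sum_congr rfl fun j _ => ?_
    unfold Gou.s
    rw [pow_mul]
    have : ((2 : ℚ) ^ 20) ^ j ≠ 0 := by positivity
    generalize ((2 : ℚ) ^ 20) ^ j = A at *
    field_simp
  have h3 : ((2 : ℚ) ^ 20) ^ h = (2 ^ (2 * h)) ^ 10 := by
    rw [← pow_mul, ← pow_mul]; congr 1; ring
  have h4 : ((2 : ℚ) ^ (2 * h)) ^ 10 ≠ 0 := by positivity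
  rw [h3] at h1
  have h5 := (eq_div_iff h4).mpr ((mul_comm _ _).trans h1)
  rw [h2, h5, div_mul_eq_mul_div]
  congr 1
  rw [Finset.mul_sum, Finset.mul_sum]
  refine sum_congr rfl fun k hk => ?_
  have hk' := Finset.mem_range.mp hk
  have h6 : Gou.t k (h - k) = (2 * (h : ℚ) + 1) * (2 * (k : ℚ) + 1) * (16 ^ h * Gou.U k (h - k)) ^ 2 / 16 := by
    unfold Gou.t Gou.X
    rw [show k + (h - k) = h by omega]
    push_cast
    ring
  rw [h6, U_eq h k (by omega)]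
  have h7 := cb_rel h
  have h8 : (16 : ℚ) ^ h ≠ 0 := by positivity
  have h9 : ((-1 : ℚ) ^ k) ^ 2 = 1 := by rw [← pow_mul, mul_comm, pow_mul]; norm_num
  have h10 : 16 ^ h * ((-1) ^ k * (-((2 * (h : ℚ) + 1) * ((2 * h).choose h : ℚ) ^ 2 / 16 ^ h)) *
      V2 (2 * (h : ℚ) + 1) k) = (-1) ^ k * (-((2 * (h : ℚ) + 1) * ((2 * h).choose h : ℚ) ^ 2)) *
      V2 (2 * (h : ℚ) + 1) k := by
    field_simp
  rw [h10]
  generalize V2 (2 * (h : ℚ) + 1) k = A at *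
  generalize (((2 * h).choose h : ℕ) : ℚ) = c at *
  generalize (((2 * (h + 1)).choose (h + 1) : ℕ) : ℚ) = c' at *
  generalize (-1 : ℚ) ^ k = e at *
  push_cast
  have h11 : ((h : ℚ) + 1) ^ 3 * c' ^ 3 = (2 * (2 * h + 1) * c) ^ 3 := by
    rw [← mul_pow, h7]
  linear_combination (2 * ((2 * (h : ℚ) + 1) * (2 * k + 1) * (e * (-((2 * (h : ℚ) + 1) * c ^ 2)) * A) ^ 2 / 16)) * h11
    + ((2 * (h : ℚ) + 1) ^ 6 * c ^ 7 * (2 * k + 1) * A ^ 2) * h9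

end Pool.Agent.H54.SC
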