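import Mathlib
import Pool.Agent.H54.SC.Ring2

/-!
# Products in `ZMod (p ^ 5)`
-/

set_option autoImplicit false

namespace Pool.Agent.H54.SC

open Finset

theorem prod_eo {M : Type*} [CommMonoid M] (h : ℕ) (f : ℕ → M) :
    ∏ j ∈ range (2 * h), f j = (∏ j ∈ range h, f (2 * j)) * ∏ j ∈ range h, f (2 * j + 1) := by
  induction h with
  | zero => simp
  | succ n ih =>
    rw [show 2 * (n + 1) = 2 * n + 1 + 1 by ring, prod_range_succ, prod_range_succ, ih,
      prod_range_succ, prod_range_succ]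
    rw [mul_mul_mul_comm, mul_assoc, mul_assoc]

theorem prod_half {M : Type*} [CommMonoid M] (h : ℕ) (f : ℕ → M) :
    ∏ j ∈ range (2 * h), f j = (∏ j ∈ range h, f j) * ∏ j ∈ range h, f (2 * h - 1 - j) := by
  have e : ∏ j ∈ range h, f (2 * h - 1 - j) = ∏ j ∈ range h, f (h + j) := by
    rw [← prod_range_reflect (fun j => f (h + j))]
    refine prod_congr rfl fun j hj => ?_
    have := mem_range.mp hj
    congr 1
    omega
  rw [e, two_mul, prod_range_add]

theorem prod_odd_reflect {M : Type*} [CommMonoid M] (h : ℕ) (f : ℕ → M) :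
    ∏ j ∈ range h, f (2 * j) = ∏ j ∈ range h, f (2 * h - 1 - (2 * j + 1)) := by
  rw [← prod_range_reflect]
  refine prod_congr rfl fun j hj => ?_
  have := mem_range.mp hj
  congr 1
  omega

variable {p h : ℕ} [hpf : Fact p.Prime]

theorem fac (c : ZMod (p ^ 5)) {n : ℕ} (h0 : 0 < n) (hn : n < p) :
    (n : ZMod (p ^ 5)) + c * (p : ZMod (p ^ 5)) = (n : ZMod (p ^ 5)) * (1 + (p : ZMod (p ^ 5)) * (c * rho p n)) := by
  have := rho_mul p h0 hn
  linear_combination (-(c * (p : ZMod (p ^ 5)))) * this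

theorem prodF (hp : p = 2 * h + 1) (c : ZMod (p ^ 5)) :
    ∏ i ∈ range (2 * h), ((i : ZMod (p ^ 5)) + 1 + c * (p : ZMod (p ^ 5))) =
      (∏ i ∈ range (2 * h), ((i : ZMod (p ^ 5)) + 1)) * PF p h c := by
  unfold PF
  rw [← prod_mul_distrib]
  refine prod_congr rfl fun i hi => ?_
  have := mem_range.mp hi
  have h1 := fac (p := p) c (n := i + 1) (by omega) (by omega)
  push_cast at h1
  exact h1

theorem prodH (hp : p = 2 * h + 1) (c : ZMod (p ^ 5)) :
    ∏ i ∈ range h, ((i : ZMod (p ^ 5)) + 1 + c * (p : ZMod (p ^ 5))) =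
      (∏ i ∈ range h, ((i : ZMod (p ^ 5)) + 1)) * PH p h c := by
  unfold PH
  rw [← prod_mul_distrib]
  refine prod_congr rfl fun i hi => ?_
  have := mem_range.mp hi
  have h1 := fac (p := p) c (n := i + 1) (by omega) (by omega)
  push_cast at h1
  exact h1

theorem prodO (hp : p = 2 * h + 1) (c : ZMod (p ^ 5)) :
    ∏ j ∈ range h, (2 * (j : ZMod (p ^ 5)) + 1 + c * (p : ZMod (p ^ 5))) =
      (∏ j ∈ range h, (2 * (j : ZMod (p ^ 5)) + 1)) * PO p h c := by
  unfold PO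
  rw [← prod_mul_distrib]
  refine prod_congr rfl fun i hi => ?_
  have := mem_range.mp hi
  have h1 := fac (p := p) c (n := 2 * i + 1) (by omega) (by omega)
  push_cast at h1
  exact h1

theorem unit_of {n : ℕ} (h0 : 0 < n) (hn : n < p) : IsUnit (n : ZMod (p ^ 5)) :=
  IsUnit.of_mul_eq_one _ (rho_mul p h0 hn)

theorem unitF (hp : p = 2 * h + 1) : IsUnit (∏ i ∈ range (2 * h), ((i : ZMod (p ^ 5)) + 1)) := by
  rw [IsUnit.prod_iff]
  intro i hi
  have := mem_range.mp hi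
  have h1 := unit_of (p := p) (n := i + 1) (by omega) (by omega)
  push_cast at h1
  exact h1

theorem unitH (hp : p = 2 * h + 1) : IsUnit (∏ i ∈ range h, ((i : ZMod (p ^ 5)) + 1)) := by
  rw [IsUnit.prod_iff]
  intro i hi
  have := mem_range.mp hi
  have h1 := unit_of (p := p) (n := i + 1) (by omega) (by omega)
  push_cast at h1
  exact h1

theorem unitO (hp : p = 2 * h + 1) : IsUnit (∏ j ∈ range h, (2 * (j : ZMod (p ^ 5)) + 1)) := by
  rw [IsUnit.prod_iff]
  intro i hi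
  have := mem_range.mp hi
  have h1 := unit_of (p := p) (n := 2 * i + 1) (by omega) (by omega)
  push_cast at h1
  exact h1

theorem unit2 (h7 : 7 ≤ p) : IsUnit (2 : ZMod (p ^ 5)) := by
  have h1 := unit_of (p := p) (n := 2) (by omega) (by omega)
  exact_mod_cast h1

/-- `B = ∏ (1 + p/i)` -/
theorem Bn_red (hp : p = 2 * h + 1) : ((((4 * h + 1).choose (2 * h)) : ℕ) : ZMod (p ^ 5)) = PF p h 1 := by
  have h1 := Nat.ascFactorial_eq_factorial_mul_choose (2 * h + 1) (2 * h)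
  rw [Nat.ascFactorial_eq_prod_range, ← Finset.prod_range_add_one_eq_factorial,
    show 2 * h + 1 + 2 * h = 4 * h + 1 by ring] at h1
  have h2 := congrArg (Nat.cast : ℕ → ZMod (p ^ 5)) h1
  push_cast at h2
  have h3 : ∏ i ∈ range (2 * h), (2 * (h : ZMod (p ^ 5)) + 1 + 1 + (i : ZMod (p ^ 5))) =
      ∏ i ∈ range (2 * h), ((i : ZMod (p ^ 5)) + 1 + 1 * (p : ZMod (p ^ 5))) := by
    refine prod_congr rfl fun i _ => ?_
    have : (p : ZMod (p ^ 5)) = 2 * (h : ZMod (p ^ 5)) + 1 := by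
      have h9 : (p : ZMod (p ^ 5)) = ((2 * h + 1 : ℕ) : ZMod (p ^ 5)) := congrArg Nat.cast hp
      rw [h9]
      push_cast
      ring
    rw [this]
    ring
  rw [h3, prodF hp] at h2
  exact ((unitF hp).mul_left_cancel h2).symm

theorem two_h_sub (hp : p = 2 * h + 1) {i : ℕ} (hi : i < 2 * h) :
    ((2 * h - i : ℕ) : ZMod (p ^ 5)) = - ((i : ZMod (p ^ 5)) + 1 + (-1) * (p : ZMod (p ^ 5))) := by
  rw [Nat.cast_sub (by omega)]
  have : (p : ZMod (p ^ 5)) = 2 * (h : ZMod (p ^ 5)) + 1 := by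
    have h9 : (p : ZMod (p ^ 5)) = ((2 * h + 1 : ℕ) : ZMod (p ^ 5)) := congrArg Nat.cast hp
    rw [h9]
    push_cast
    ring
  rw [this]
  push_cast
  ring

/-- `C(2h,h) = (-1)^h ∏ (1 - p/i)` -/
theorem cb_red (hp : p = 2 * h + 1) : ((((2 * h).choose h) : ℕ) : ZMod (p ^ 5)) = (-1) ^ h * PH p h (-1) := by
  have h1 := Nat.descFactorial_eq_factorial_mul_choose (2 * h) h
  rw [Nat.descFactorial_eq_prod_range, ← Finset.prod_range_add_one_eq_factorial] at h1
  have h2 := congrArg (Nat.cast : ℕ → ZMod (p ^ 5)) h1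
  rw [Nat.cast_prod, Nat.cast_mul, Nat.cast_prod] at h2
  have h3 : ∏ i ∈ range h, ((2 * h - i : ℕ) : ZMod (p ^ 5)) =
      (-1) ^ h * ∏ i ∈ range h, ((i : ZMod (p ^ 5)) + 1 + (-1) * (p : ZMod (p ^ 5))) := by
    have : ((-1 : ZMod (p ^ 5))) ^ h = ∏ i ∈ range h, (-1 : ZMod (p ^ 5)) := by simp
    rw [this, ← prod_mul_distrib]
    refine prod_congr rfl fun i hi => ?_
    have := mem_range.mp hi
    rw [two_h_sub hp (by omega)]
    ring
  rw [h3, prodH hp] at h2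
  push_cast at h2
  refine (unitH hp).mul_left_cancel ?_
  rw [← h2]
  ring

/-- `2^(p-1) ∏ (1 - p/(2j)) = ∏ (1 - p/j)` -/
theorem t_red (hp : p = 2 * h + 1) (h7 : 7 ≤ p) :
    (2 : ZMod (p ^ 5)) ^ (2 * h) * PH p h (- rho p 2) = PH p h (-1) := by
  have h1 := prod_half h (fun j => ((j + 1 : ℕ) : ZMod (p ^ 5)))
  rw [prod_eo, prod_odd_reflect h (fun j => ((j + 1 : ℕ) : ZMod (p ^ 5)))] at h1
  have e1 : ∏ j ∈ range h, ((2 * h - 1 - j + 1 : ℕ) : ZMod (p ^ 5)) =
      (-1) ^ h * ((∏ i ∈ range h, ((i : ZMod (p ^ 5)) + 1)) * PH p h (-1)) := by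
    rw [← prodH hp]
    have : ((-1 : ZMod (p ^ 5))) ^ h = ∏ i ∈ range h, (-1 : ZMod (p ^ 5)) := by simp
    rw [this, ← prod_mul_distrib]
    refine prod_congr rfl fun i hi => ?_
    have := mem_range.mp hi
    rw [show 2 * h - 1 - i + 1 = 2 * h - i by omega, two_h_sub hp (by omega)]
    ring
  have e2 : ∏ j ∈ range h, ((2 * h - 1 - (2 * j + 1) + 1 : ℕ) : ZMod (p ^ 5)) =
      (-2) ^ h * ((∏ i ∈ range h, ((i : ZMod (p ^ 5)) + 1)) * PH p h (- rho p 2)) := by
    rw [← prodH hp]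
    have : ((-2 : ZMod (p ^ 5))) ^ h = ∏ i ∈ range h, (-2 : ZMod (p ^ 5)) := by simp
    rw [this, ← prod_mul_distrib]
    refine prod_congr rfl fun i hi => ?_
    have := mem_range.mp hi
    rw [show 2 * h - 1 - (2 * i + 1) + 1 = 2 * h - (2 * i + 1) by omega, two_h_sub hp (by omega)]
    have h2 := two_rho (p := p) h7
    push_cast
    linear_combination (-(p : ZMod (p ^ 5))) * h2
  have e3 : ∏ j ∈ range h, ((2 * j + 1 + 1 : ℕ) : ZMod (p ^ 5)) =
      2 ^ h * (∏ i ∈ range h, ((i : ZMod (p ^ 5)) + 1)) := by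
    have : ((2 : ZMod (p ^ 5))) ^ h = ∏ i ∈ range h, (2 : ZMod (p ^ 5)) := by simp
    rw [this, ← prod_mul_distrib]
    refine prod_congr rfl fun i hi => ?_
    push_cast
    ring
  have e4 : ∏ j ∈ range h, ((j + 1 : ℕ) : ZMod (p ^ 5)) = ∏ i ∈ range h, ((i : ZMod (p ^ 5)) + 1) := by
    refine prod_congr rfl fun i hi => ?_
    push_cast
    ring
  rw [e1, e2, e3, e4] at h1
  have u := unitH (p := p) (h := h) hp
  have hs : ((-1 : ZMod (p ^ 5)) ^ h) * (-1) ^ h = 1 := by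
    rw [← mul_pow]; simp
  have hs2 : ((-2 : ZMod (p ^ 5)) ^ h) = (-1) ^ h * 2 ^ h := by
    rw [← mul_pow]; norm_num
  refine u.mul_left_cancel (u.mul_left_cancel ?_)
  rw [hs2] at h1
  rw [two_mul h, pow_add]
  generalize ∏ i ∈ range h, ((i : ZMod (p ^ 5)) + 1) = A at *
  generalize (2 : ZMod (p ^ 5)) ^ h = t at *
  generalize (-1 : ZMod (p ^ 5)) ^ h = e at *
  linear_combination e * h1 + (A * A * PH p h (-1) - A * A * t * t * PH p h (- rho p 2)) * hs

end Pool.Agent.H54.SC
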