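import Mathlib
import Pool.Agent.H54.SC.Bridge
import Pool.Agent.H54.SC.Prods
import Pool.Agent.H54.SC.Exact

/-!
# The first supercongruence
-/

set_option autoImplicit false

namespace Pool.Agent.H54.SC

open Finset
open Pool.Agent.R440 (Zp mem_Zp_def natCast_mem_Zp intCast_mem_Zp inv_nat_mem_Zp)

theorem odd_ne' (h k : ℕ) : 2 * (k : ℚ) + 1 - 2 * (2 * (h : ℚ) + 1) ≠ 0 := by
  intro h0
  have h1 : (2 * (k : ℤ) + 1 - 2 * (2 * (h : ℤ) + 1)) = 0 := by exact_mod_cast h0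
  omega

theorem V1_succ (h k : ℕ) : V1 (2 * (h : ℚ) + 1) (k + 1) *
    ((2 * (k : ℚ) + 1 + 2 - 2 * (2 * (h : ℚ) + 1)) * (2 * (k : ℚ) + 1 + 2 + (2 * (h : ℚ) + 1)) *
      (2 * (k : ℚ) + 1 + 1 + (2 * (h : ℚ) + 1))) =
    V1 (2 * (h : ℚ) + 1) k * ((2 * (k : ℚ) + 1 + 2 * (2 * (h : ℚ) + 1)) *
      (2 * (k : ℚ) + 1 - (2 * (h : ℚ) + 1)) * (2 * (k : ℚ) + 1 + 1 - (2 * (h : ℚ) + 1))) := by
  rw [V1]
  have e1 : (2 * (k : ℚ) + 1 + 2 - 2 * (2 * (h : ℚ) + 1)) ≠ 0 := by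
    have := odd_ne' h (k + 1)
    push_cast at this
    intro h0; apply this; linear_combination h0
  have e2 : (2 * (k : ℚ) + 1 + 2 + (2 * (h : ℚ) + 1)) ≠ 0 := by positivity
  have e3 : (2 * (k : ℚ) + 1 + 1 + (2 * (h : ℚ) + 1)) ≠ 0 := by positivity
  rw [div_mul_cancel₀]
  exact mul_ne_zero (mul_ne_zero e1 e2) e3

theorem V1_zero (h : ℕ) : V1 (2 * (h : ℚ) + 1) 0 *
    ((1 + (2 * (h : ℚ) + 1)) * (1 - 2 * (2 * (h : ℚ) + 1))) = 1 := by
  rw [V1]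
  have e1 : (1 - 2 * (2 * (h : ℚ) + 1)) ≠ 0 := by
    have := odd_ne' h 0
    push_cast at this
    intro h0; apply this; linear_combination h0
  have e2 : (1 + (2 * (h : ℚ) + 1)) ≠ 0 := by positivity
  rw [div_mul_cancel₀]
  exact mul_ne_zero e2 e1

theorem V1_prod (h k : ℕ) : V1 (2 * (h : ℚ) + 1) k *
    ((∏ i ∈ range (2 * k + 1), ((i : ℚ) + 1 + (2 * (h : ℚ) + 1))) *
      ∏ j ∈ range (k + 1), (2 * (j : ℚ) + 1 - 2 * (2 * (h : ℚ) + 1))) =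
    (∏ i ∈ range (2 * k), ((i : ℚ) + 1 - (2 * (h : ℚ) + 1))) *
      ∏ j ∈ range k, (2 * (j : ℚ) + 1 + 2 * (2 * (h : ℚ) + 1)) := by
  induction k with
  | zero =>
    have := V1_zero h
    simp only [mul_zero, zero_add, prod_range_one, prod_range_zero, Nat.cast_zero]
    linear_combination this
  | succ k ih =>
    have h1 := V1_succ h k
    rw [show 2 * (k + 1) + 1 = 2 * k + 1 + 1 + 1 by ring, show 2 * (k + 1) = 2 * k + 1 + 1 by ring]
    simp only [prod_range_succ] at ih ⊢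
    push_cast at ih ⊢
    generalize ∏ i ∈ range (2 * k), ((i : ℚ) + 1 + (2 * (h : ℚ) + 1)) = A1 at *
    generalize ∏ j ∈ range k, (2 * (j : ℚ) + 1 - 2 * (2 * (h : ℚ) + 1)) = A2 at *
    generalize ∏ i ∈ range (2 * k), ((i : ℚ) + 1 - (2 * (h : ℚ) + 1)) = A3 at *
    generalize ∏ j ∈ range k, (2 * (j : ℚ) + 1 + 2 * (2 * (h : ℚ) + 1)) = A4 at *
    generalize V1 (2 * (h : ℚ) + 1) (k + 1) = B1 at *
    generalize V1 (2 * (h : ℚ) + 1) k = B0 at *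
    linear_combination (A1 * (2 * (k : ℚ) + 1 + (2 * (h : ℚ) + 1)) * (A2 * (2 * (k : ℚ) + 1 - 2 * (2 * (h : ℚ) + 1)))) * h1
      + ((2 * (k : ℚ) + 1 + 2 * (2 * (h : ℚ) + 1)) *
      (2 * (k : ℚ) + 1 - (2 * (h : ℚ) + 1)) * (2 * (k : ℚ) + 1 + 1 - (2 * (h : ℚ) + 1))) * ih

variable {p h : ℕ} [hpf : Fact p.Prime]

omit hpf in
theorem ndvd {a : ℕ} (h0 : 0 < a) (ha : a < p) (c : ℤ) : ¬ (p : ℤ) ∣ (a : ℤ) + c * p := by
  intro hd
  have h1 : (p : ℤ) ∣ (a : ℤ) := (Int.dvd_iff_dvd_of_dvd_add hd).mpr (Dvd.intro_left c rfl) 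
  have h2 : p ∣ a := by exact_mod_cast h1
  exact absurd (Nat.le_of_dvd h0 h2) (by omega)

theorem ndvd_mul {a b : ℤ} (ha : ¬ (p : ℤ) ∣ a) (hb : ¬ (p : ℤ) ∣ b) : ¬ (p : ℤ) ∣ a * b := by
  intro hd
  rcases (Nat.prime_iff_prime_int.mp hpf.out).dvd_or_dvd hd with h | h
  · exact ha h
  · exact hb h

omit hpf in
theorem cast_p (hp : p = 2 * h + 1) : (p : ℚ) = 2 * (h : ℚ) + 1 := by
  have h9 : (p : ℚ) = ((2 * h + 1 : ℕ) : ℚ) := congrArg Nat.cast hp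
  rw [h9]
  push_cast
  ring

theorem V1_mem (hp : p = 2 * h + 1) (k : ℕ) (hk : k < h) : V1 (2 * (h : ℚ) + 1) k ∈ Zp p := by
  have hq := cast_p hp
  induction k with
  | zero =>
    rw [V1, ← hq]
    have h1 : ¬ (p : ℤ) ∣ ((1 : ℕ) + (1 : ℤ) * p) * ((1 : ℕ) + (-2 : ℤ) * p) :=
      ndvd_mul (ndvd (by norm_num) (by omega) _) (ndvd (by norm_num) (by omega) _)
    have h2 := div_int_mem p (Zp p).one_mem h1
    convert h2 using 2
    push_cast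
    ring
  | succ k ih =>
    rw [V1, ← hq]
    have h1 : ¬ (p : ℤ) ∣ (((2 * k + 1 + 2 : ℕ) + (-2 : ℤ) * p) * ((2 * k + 1 + 2 : ℕ) + (1 : ℤ) * p)) *
        ((2 * k + 1 + 1 : ℕ) + (1 : ℤ) * p) :=
      ndvd_mul (ndvd_mul (ndvd (by omega) (by omega) _) (ndvd (by omega) (by omega) _))
        (ndvd (by omega) (by omega) _)
    have h3 : V1 (p : ℚ) k * ((2 * (k : ℚ) + 1 + 2 * p) * (2 * (k : ℚ) + 1 - p) * (2 * (k : ℚ) + 1 + 1 - p))
        ∈ Zp p := by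
      have h4 := (Zp p).mul_mem (ih (by omega)) (intCast_mem_Zp (p := p)
        ((2 * (k : ℤ) + 1 + 2 * p) * (2 * (k : ℤ) + 1 - p) * (2 * (k : ℤ) + 1 + 1 - p)))
      rw [← hq] at h4
      convert h4 using 2
      push_cast
      ring
    have h2 := div_int_mem p h3 h1
    convert h2 using 2
    push_cast
    ring

/-- unit part of the last term -/
noncomputable def W1 (h : ℕ) : ℚ := V1 (2 * (h : ℚ) + 1) (h - 1) * (2 * (3 * (2 * (h : ℚ) + 1) - 2)) /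
  (2 * (2 * (h : ℚ) + 1) - 1)

theorem V1_last (h : ℕ) (h1 : 1 ≤ h) :
    2 * (2 * (h : ℚ) + 1) ^ 2 * V1 (2 * (h : ℚ) + 1) h = - W1 h := by
  obtain ⟨g, rfl⟩ : ∃ g, h = g + 1 := ⟨h - 1, by omega⟩
  unfold W1
  rw [Nat.add_sub_cancel]
  conv_lhs => rw [V1]
  push_cast
  have e1 : (2 * (2 * ((g : ℚ) + 1) + 1) - 1) ≠ 0 := by
    have : (0 : ℚ) ≤ g := Nat.cast_nonneg g
    intro h0
    linarith
  have e2 : (2 * (g : ℚ) + 1 + 2 - 2 * (2 * ((g : ℚ) + 1) + 1)) = - (2 * ((g : ℚ) + 1) + 1) := by ring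
  have e3 : (2 * (g : ℚ) + 1 + 2 + (2 * ((g : ℚ) + 1) + 1)) = 2 * (2 * ((g : ℚ) + 1) + 1) := by ring
  have e4 : (2 * (g : ℚ) + 1 + 1 + (2 * ((g : ℚ) + 1) + 1)) = 2 * (2 * ((g : ℚ) + 1) + 1) - 1 := by ring
  have e5 : (2 * (g : ℚ) + 1 - (2 * ((g : ℚ) + 1) + 1)) = -2 := by ring
  have e6 : (2 * (g : ℚ) + 1 + 1 - (2 * ((g : ℚ) + 1) + 1)) = -1 := by ring
  have e7 : (2 * (g : ℚ) + 1 + 2 * (2 * ((g : ℚ) + 1) + 1)) = 3 * (2 * ((g : ℚ) + 1) + 1) - 2 := by ring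
  rw [e2, e3, e4, e5, e6, e7]
  have e8 : (2 * ((g : ℚ) + 1) + 1) ≠ 0 := by positivity
  generalize V1 (2 * ((g : ℚ) + 1) + 1) g = A
  generalize (2 * ((g : ℚ) + 1) + 1) = q at *
  field_simp

theorem W1_prod (h : ℕ) (h1 : 1 ≤ h) : W1 h *
    ((∏ i ∈ range (2 * h), ((i : ℚ) + 1 + (2 * (h : ℚ) + 1))) *
      ∏ j ∈ range h, (2 * (j : ℚ) + 1 - 2 * (2 * (h : ℚ) + 1))) =
    (∏ i ∈ range (2 * h), ((i : ℚ) + 1 - (2 * (h : ℚ) + 1))) *
      ∏ j ∈ range h, (2 * (j : ℚ) + 1 + 2 * (2 * (h : ℚ) + 1)) := by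
  obtain ⟨g, rfl⟩ : ∃ g, h = g + 1 := ⟨h - 1, by omega⟩
  have h2 := V1_prod (g + 1) g
  unfold W1
  rw [Nat.add_sub_cancel]
  rw [show 2 * (g + 1) = 2 * g + 1 + 1 by ring]
  simp only [prod_range_succ] at h2 ⊢
  push_cast at h2 ⊢
  have e1 : (2 * (2 * ((g : ℚ) + 1) + 1) - 1) ≠ 0 := by
    have : (0 : ℚ) ≤ g := Nat.cast_nonneg g
    intro h0
    linarith
  rw [div_mul_eq_mul_div, div_eq_iff e1]
  generalize ∏ i ∈ range (2 * g), ((i : ℚ) + 1 + (2 * ((g : ℚ) + 1) + 1)) = A1 at *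
  generalize ∏ j ∈ range g, (2 * (j : ℚ) + 1 - 2 * (2 * ((g : ℚ) + 1) + 1)) = A2 at *
  generalize ∏ i ∈ range (2 * g), ((i : ℚ) + 1 - (2 * ((g : ℚ) + 1) + 1)) = A3 at *
  generalize ∏ j ∈ range g, (2 * (j : ℚ) + 1 + 2 * (2 * ((g : ℚ) + 1) + 1)) = A4 at *
  generalize V1 (2 * ((g : ℚ) + 1) + 1) g = B0 at *
  linear_combination (2 * (3 * (2 * ((g : ℚ) + 1) + 1) - 2) * (2 * (2 * ((g : ℚ) + 1) + 1) - 1)) * h2

theorem W1_mem (hp : p = 2 * h + 1) (h7 : 7 ≤ p) : W1 h ∈ Zp p := by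
  have hq := cast_p hp
  unfold W1
  have h1 : ¬ (p : ℤ) ∣ ((p - 1 : ℕ) : ℤ) + (1 : ℤ) * p := ndvd (by omega) (by omega) _
  have h3 := (Zp p).mul_mem (V1_mem hp (h - 1) (by omega)) (intCast_mem_Zp (p := p)
        (2 * (3 * (p : ℤ) - 2)))
  have h2 := div_int_mem p h3 h1
  rw [← hq] at h2 ⊢
  convert h2 using 2
  · push_cast
    ring
  · rw [Nat.cast_sub (by omega : 1 ≤ p)]
    push_cast
    ring

theorem S1_u (h : ℕ) (h1 : 1 ≤ h) :
    ∑ k ∈ range (2 * h + 1), (21 * (k : ℚ) ^ 3 + 22 * (k : ℚ) ^ 2 + 8 * k + 1) / 256 ^ k *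
      ((2 * k).choose k : ℚ) ^ 7 =
    (2 * (h : ℚ) + 1) ^ 3 * ((Bn h : ℚ) ^ 7 * (1 / (2 ^ (2 * h))) ^ 8 * (W1 h ^ 2 + 4 * ((2 * (h : ℚ) + 1) ^ 3 *
      ∑ k ∈ range h, (2 * (k : ℚ) + 1) * V1 (2 * (h : ℚ) + 1) k ^ 2))) := by
  rw [S1_exact, sum_range_succ]
  have h2 := V1_last h h1
  have h3 : (2 : ℚ) ^ (2 * h) ≠ 0 := by positivity
  generalize ∑ k ∈ range h, (2 * (k : ℚ) + 1) * V1 (2 * (h : ℚ) + 1) k ^ 2 = S at *
  generalize V1 (2 * (h : ℚ) + 1) h = A at *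
  have h4 : W1 h = - (2 * (2 * (h : ℚ) + 1) ^ 2 * A) := by linarith
  rw [h4]
  generalize (2 : ℚ) ^ (2 * h) = t at *
  field_simp
  ring

/-- the powers of two -/
theorem pow_two_mem (h7 : 7 ≤ p) (n : ℕ) : (1 / (2 : ℚ) ^ n) ∈ Zp p := by
  have h1 : ¬ p ∣ 2 ^ n := by
    intro hd
    have := hpf.out.dvd_of_dvd_pow hd
    exact absurd (Nat.le_of_dvd (by norm_num) this) (by omega)
  have := inv_nat_mem_Zp (p := p) h1
  push_cast at this
  exact this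

theorem first_cong (hp : p = 2 * h + 1) (h7 : 7 ≤ p) : ∃ c : ℚ, ¬ p ∣ c.den ∧
    ∑ k ∈ range p, (21 * (k : ℚ) ^ 3 + 22 * (k : ℚ) ^ 2 + 8 * k + 1) / 256 ^ k *
      ((2 * k).choose k : ℚ) ^ 7 - (p : ℚ) ^ 3 = (p : ℚ) ^ 8 * c := by
  have hq := cast_p hp
  have hp0 : (p : ℚ) ≠ 0 := by exact_mod_cast hpf.out.ne_zero
  -- elements
  set v : ℕ → Zp p := fun k => if hk : k < h then ⟨V1 (2 * (h : ℚ) + 1) k, V1_mem hp k hk⟩ else 0 with hv
  have hvk : ∀ k, k < h → ((v k : Zp p) : ℚ) = V1 (2 * (h : ℚ) + 1) k := by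
    intro k hk
    simp only [hv, dif_pos hk]
  set w : Zp p := ⟨W1 h, W1_mem hp h7⟩ with hw
  set ti : Zp p := ⟨1 / (2 : ℚ) ^ (2 * h), pow_two_mem h7 _⟩ with hti
  set S : Zp p := ∑ k ∈ range h, (2 * (k : Zp p) + 1) * v k ^ 2 with hS
  set u : Zp p := (Bn h : Zp p) ^ 7 * ti ^ 8 * (w ^ 2 + 4 * ((p : Zp p) ^ 3 * S)) with hu
  have hSc : (S : ℚ) = ∑ k ∈ range h, (2 * (k : ℚ) + 1) * V1 (2 * (h : ℚ) + 1) k ^ 2 := by
    rw [hS]
    push_cast
    refine sum_congr rfl fun k hk => ?_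
    rw [hvk k (mem_range.mp hk), Zp_coe_ofNat]
  have huc : (u : ℚ) = (Bn h : ℚ) ^ 7 * (1 / (2 ^ (2 * h))) ^ 8 * (W1 h ^ 2 + 4 * ((2 * (h : ℚ) + 1) ^ 3 *
      ∑ k ∈ range h, (2 * (k : ℚ) + 1) * V1 (2 * (h : ℚ) + 1) k ^ 2)) := by
    rw [hu]
    push_cast
    rw [hSc, hq, Zp_coe_ofNat]
  -- in `ZMod (p ^ 5)`
  have hpsi : psi p u = 1 := by
    have t1 : psi p ti * 2 ^ (2 * h) = 1 := by
      have e : ti * (2 : Zp p) ^ (2 * h) = 1 := by
        apply Subtype.ext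
        rw [hti]
        push_cast
        rw [Zp_coe_ofNat]
        have : (2 : ℚ) ^ (2 * h) ≠ 0 := by positivity
        field_simp
      have := congrArg (psi p) e
      rw [map_mul, map_pow, map_ofNat, map_one] at this
      exact this
    have hb := Bn_red (p := p) hp
    have ht := t_red (p := p) hp h7
    have hwR : psi p w * (PF p h 1 * PO p h (-2)) = PF p h (-1) * PO p h 2 := by
      have e : w * ((∏ i ∈ range (2 * h), ((i : Zp p) + 1 + 1 * (p : Zp p))) *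
          ∏ j ∈ range h, (2 * (j : Zp p) + 1 + (-2) * (p : Zp p))) =
          (∏ i ∈ range (2 * h), ((i : Zp p) + 1 + (-1) * (p : Zp p))) *
          ∏ j ∈ range h, (2 * (j : Zp p) + 1 + 2 * (p : Zp p)) := by
        apply Subtype.ext
        have e2 := W1_prod h (by omega)
        rw [← hq] at e2
        rw [hw]
        push_cast
        simp only [one_mul, neg_mul, ← sub_eq_add_neg]
        exact e2
      have e3 := congrArg (psi p) e
      simp only [map_mul, map_prod, map_add, map_neg, map_natCast, map_one, map_ofNat] at e3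
      rw [prodF hp, prodF hp, prodO hp, prodO hp] at e3
      have u1 := (unitF (p := p) hp).mul (unitO (p := p) hp)
      refine u1.mul_left_cancel ?_
      linear_combination e3
    have hfam : ∀ k < h, (p : ZMod (p ^ 5)) ^ 3 * (psi p (v k)) ^ 2 = (p : ZMod (p ^ 5)) ^ 3 * (rho p (2 * k + 1) ^ 4 *
        (1 + 2 * (p : ZMod (p ^ 5)) * (2 * altR p k + rho p (2 * k + 1)))) := by
      refine fam1 hp (fun k => psi p (v k)) ?_ ?_
      · have e : v 0 * ((1 + (p : Zp p)) * (1 - 2 * (p : Zp p))) = 1 := by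
          apply Subtype.ext
          have e2 := V1_zero h
          rw [← hvk 0 (by omega), ← hq] at e2
          push_cast
          exact e2
        have e3 := congrArg (psi p) e
        simp only [map_mul, map_add, map_sub, map_natCast, map_one, map_ofNat] at e3
        exact e3
      · intro k hk
        have e : v (k + 1) * ((2 * (k : Zp p) + 1 + 2 - 2 * (p : Zp p)) *
            (2 * (k : Zp p) + 1 + 2 + (p : Zp p)) * (2 * (k : Zp p) + 1 + 1 + (p : Zp p))) =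
            v k * ((2 * (k : Zp p) + 1 + 2 * (p : Zp p)) * (2 * (k : Zp p) + 1 - (p : Zp p)) *
              (2 * (k : Zp p) + 1 + 1 - (p : Zp p))) := by
          apply Subtype.ext
          have e2 := V1_succ h k
          rw [← hvk (k + 1) hk, ← hvk k (by omega), ← hq] at e2
          push_cast
          exact e2
        have e3 := congrArg (psi p) e
        simp only [map_mul, map_add, map_sub, map_natCast, map_one, map_ofNat] at e3
        exact e3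
    have hsum := fam1_sum (p := p) hp h7 (fun k => psi p (v k)) hfam
    have hSR : psi p S = ∑ k ∈ range h, (2 * (k : ZMod (p ^ 5)) + 1) * (psi p (v k)) ^ 2 := by
      rw [hS]
      simp only [map_sum, map_mul, map_pow, map_add, map_natCast, map_one, map_ofNat]
    have hfin := ring1 (p := p) hp h7 (b := ((Bn h : ℕ) : ZMod (p ^ 5))) hb ht hwR hsum
    rw [hu]
    simp only [map_mul, map_pow, map_add, map_natCast, map_ofNat]
    rw [hSR]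
    have t8 : (psi p ti) ^ 8 * (2 ^ (2 * h)) ^ 8 = 1 := by
      rw [← mul_pow, t1, one_pow]
    linear_combination (psi p ti) ^ 8 * hfin + t8
  have hmem : ((u - 1 : Zp p) : ℚ) / (p : ℚ) ^ 5 ∈ Zp p := by
    apply mem_of_psi
    rw [map_sub, hpsi, map_one, sub_self]
  refine ⟨((u - 1 : Zp p) : ℚ) / (p : ℚ) ^ 5, den_of_mem p hmem, ?_⟩
  have e := S1_u h (by omega)
  rw [← huc, ← hq] at e
  rw [show range p = range (2 * h + 1) by rw [← hp], e]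
  push_cast
  field_simp

end Pool.Agent.H54.SC
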