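import Mathlib
import Pool.Agent.H54.SC.First
import Pool.Agent.H54.SC.Exact2

/-!
# The second supercongruence
-/

set_option autoImplicit false

namespace Pool.Agent.H54.SC

open Finset
open Pool.Agent.R440 (Zp mem_Zp_def natCast_mem_Zp intCast_mem_Zp inv_nat_mem_Zp)

theorem even_ne (h k : ℕ) : 2 * (k : ℚ) - (2 * (h : ℚ) + 1) ≠ 0 := by
  intro h0
  have h1 : (2 * (k : ℤ) - (2 * (h : ℤ) + 1)) = 0 := by exact_mod_cast h0
  omega

theorem V2_succ (h k : ℕ) : V2 (2 * (h : ℚ) + 1) (k + 1) *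
    ((2 * (2 * (k : ℚ) + 1 + 1) - (2 * (h : ℚ) + 1)) * (2 * (2 * (k : ℚ) + 1 + 2) - (2 * (h : ℚ) + 1)) *
      (2 * (k : ℚ) + 1 + 2 + (2 * (h : ℚ) + 1))) =
    V2 (2 * (h : ℚ) + 1) k * ((2 * (2 * (k : ℚ) + 1) + (2 * (h : ℚ) + 1)) *
      (2 * (2 * (k : ℚ) + 1 + 1) + (2 * (h : ℚ) + 1)) * (2 * (k : ℚ) + 1 - (2 * (h : ℚ) + 1))) := by
  rw [V2]
  have e1 : (2 * (2 * (k : ℚ) + 1 + 1) - (2 * (h : ℚ) + 1)) ≠ 0 := by
    have := even_ne h (2 * k + 1 + 1)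
    push_cast at this
    exact this
  have e2 : (2 * (2 * (k : ℚ) + 1 + 2) - (2 * (h : ℚ) + 1)) ≠ 0 := by
    have := even_ne h (2 * k + 1 + 2)
    push_cast at this
    exact this
  have e3 : (2 * (k : ℚ) + 1 + 2 + (2 * (h : ℚ) + 1)) ≠ 0 := by positivity
  rw [div_mul_cancel₀]
  exact mul_ne_zero (mul_ne_zero e1 e2) e3

theorem V2_zero (h : ℕ) : V2 (2 * (h : ℚ) + 1) 0 *
    ((2 - (2 * (h : ℚ) + 1)) * (1 + (2 * (h : ℚ) + 1))) = 2 := by
  rw [V2]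
  have e1 : (2 - (2 * (h : ℚ) + 1)) ≠ 0 := by
    have := even_ne h 1
    push_cast at this
    intro h0; apply this; linear_combination h0
  have e2 : (1 + (2 * (h : ℚ) + 1)) ≠ 0 := by positivity
  rw [div_mul_cancel₀]
  exact mul_ne_zero e1 e2

theorem V2_prod (h k : ℕ) : V2 (2 * (h : ℚ) + 1) k *
    ((∏ i ∈ range (2 * k + 1), (2 * ((i : ℚ) + 1) - (2 * (h : ℚ) + 1))) *
      ∏ j ∈ range (k + 1), (2 * (j : ℚ) + 1 + (2 * (h : ℚ) + 1))) =
    2 * ((∏ i ∈ range (2 * k), (2 * ((i : ℚ) + 1) + (2 * (h : ℚ) + 1))) *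
      ∏ j ∈ range k, (2 * (j : ℚ) + 1 - (2 * (h : ℚ) + 1))) := by
  induction k with
  | zero =>
    have := V2_zero h
    simp only [mul_zero, zero_add, prod_range_one, prod_range_zero, Nat.cast_zero]
    linear_combination this
  | succ k ih =>
    have h1 := V2_succ h k
    rw [show 2 * (k + 1) + 1 = 2 * k + 1 + 1 + 1 by ring, show 2 * (k + 1) = 2 * k + 1 + 1 by ring]
    simp only [prod_range_succ] at ih ⊢
    push_cast at ih ⊢
    generalize ∏ i ∈ range (2 * k), (2 * ((i : ℚ) + 1) - (2 * (h : ℚ) + 1)) = A1 at *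
    generalize ∏ j ∈ range k, (2 * (j : ℚ) + 1 + (2 * (h : ℚ) + 1)) = A2 at *
    generalize ∏ i ∈ range (2 * k), (2 * ((i : ℚ) + 1) + (2 * (h : ℚ) + 1)) = A3 at *
    generalize ∏ j ∈ range k, (2 * (j : ℚ) + 1 - (2 * (h : ℚ) + 1)) = A4 at *
    generalize V2 (2 * (h : ℚ) + 1) (k + 1) = B1 at *
    generalize V2 (2 * (h : ℚ) + 1) k = B0 at *
    linear_combination (A1 * (2 * (2 * (k : ℚ) + 1) - (2 * (h : ℚ) + 1)) * (A2 * (2 * (k : ℚ) + 1 + (2 * (h : ℚ) + 1)))) * h1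
      + ((2 * (2 * (k : ℚ) + 1) + (2 * (h : ℚ) + 1)) *
      (2 * (2 * (k : ℚ) + 1 + 1) + (2 * (h : ℚ) + 1)) * (2 * (k : ℚ) + 1 - (2 * (h : ℚ) + 1))) * ih

variable {p h : ℕ} [hpf : Fact p.Prime]

theorem V2_mem (hp : p = 2 * h + 1) (h7 : 7 ≤ p) (k : ℕ) (hk : k < h) : V2 (2 * (h : ℚ) + 1) k ∈ Zp p := by
  have hq := cast_p hp
  have n2 : ¬ (p : ℤ) ∣ ((2 : ℕ) : ℤ) + (0 : ℤ) * p := ndvd (by norm_num) (by omega) _
  induction k with
  | zero =>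
    rw [V2, ← hq]
    have h1 : ¬ (p : ℤ) ∣ ((2 : ℕ) + (-1 : ℤ) * p) * ((1 : ℕ) + (1 : ℤ) * p) :=
      ndvd_mul (ndvd (by norm_num) (by omega) _) (ndvd (by norm_num) (by omega) _)
    have h2 := div_int_mem p (natCast_mem_Zp (p := p) 2) h1
    convert h2 using 2
    · norm_num
    · push_cast
      ring
  | succ k ih =>
    rw [V2, ← hq]
    -- `2 (n) - p` is prime to `p`
    have key : ∀ a : ℕ, 0 < a → a < p → ¬ (p : ℤ) ∣ 2 * (a : ℤ) - p := by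
      intro a h0 ha hd
      have h3 : (p : ℤ) ∣ 2 * (a : ℤ) := (dvd_sub_self_right).mp hd
      have h4 : ¬ (p : ℤ) ∣ (2 : ℤ) * (a : ℤ) := by
        have := ndvd_mul (p := p) (a := (2 : ℕ) + (0 : ℤ) * p) (b := (a : ℤ) + (0 : ℤ) * p) n2
          (ndvd h0 ha 0)
        simpa using this
      exact h4 h3
    have h1 : ¬ (p : ℤ) ∣ ((2 * ((2 * k + 1 + 1 : ℕ) : ℤ) - p) * (2 * ((2 * k + 1 + 2 : ℕ) : ℤ) - p)) *
        ((2 * k + 1 + 2 : ℕ) + (1 : ℤ) * p) :=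
      ndvd_mul (ndvd_mul (key _ (by omega) (by omega)) (key _ (by omega) (by omega)))
        (ndvd (by omega) (by omega) _)
    have h3 : V2 (p : ℚ) k * ((2 * (2 * (k : ℚ) + 1) + p) * (2 * (2 * (k : ℚ) + 1 + 1) + p) * (2 * (k : ℚ) + 1 - p))
        ∈ Zp p := by
      have h4 := (Zp p).mul_mem (ih (by omega)) (intCast_mem_Zp (p := p)
        ((2 * (2 * (k : ℤ) + 1) + p) * (2 * (2 * (k : ℤ) + 1 + 1) + p) * (2 * (k : ℤ) + 1 - p)))
      rw [← hq] at h4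
      convert h4 using 2
      push_cast
      ring
    have h2 := div_int_mem p h3 h1
    convert h2 using 2
    push_cast
    ring

/-- unit part of the last term -/
noncomputable def W2 (h : ℕ) : ℚ := V2 (2 * (h : ℚ) + 1) (h - 1) *
  (-((3 * (2 * (h : ℚ) + 1) - 4) * (3 * (2 * (h : ℚ) + 1) - 2))) / ((2 * (h : ℚ) + 1) - 2)

theorem V2_last (h : ℕ) (h1 : 1 ≤ h) :
    (2 * (h : ℚ) + 1) ^ 2 * V2 (2 * (h : ℚ) + 1) h = W2 h := by
  obtain ⟨g, rfl⟩ : ∃ g, h = g + 1 := ⟨h - 1, by omega⟩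
  unfold W2
  rw [Nat.add_sub_cancel]
  conv_lhs => rw [V2]
  push_cast
  have e1 : (2 * ((g : ℚ) + 1) + 1 - 2) ≠ 0 := by
    have : (0 : ℚ) ≤ g := Nat.cast_nonneg g
    intro h0
    linarith
  have e2 : (2 * (2 * (g : ℚ) + 1 + 1) - (2 * ((g : ℚ) + 1) + 1)) = (2 * ((g : ℚ) + 1) + 1) - 2 := by ring
  have e3 : (2 * (2 * (g : ℚ) + 1 + 2) - (2 * ((g : ℚ) + 1) + 1)) = (2 * ((g : ℚ) + 1) + 1) := by ring
  have e4 : (2 * (g : ℚ) + 1 + 2 + (2 * ((g : ℚ) + 1) + 1)) = 2 * (2 * ((g : ℚ) + 1) + 1) := by ring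
  have e5 : (2 * (g : ℚ) + 1 - (2 * ((g : ℚ) + 1) + 1)) = -2 := by ring
  have e6 : (2 * (2 * (g : ℚ) + 1) + (2 * ((g : ℚ) + 1) + 1)) = 3 * (2 * ((g : ℚ) + 1) + 1) - 4 := by ring
  have e7 : (2 * (2 * (g : ℚ) + 1 + 1) + (2 * ((g : ℚ) + 1) + 1)) = 3 * (2 * ((g : ℚ) + 1) + 1) - 2 := by ring
  rw [e2, e3, e4, e5, e6, e7]
  have e8 : (2 * ((g : ℚ) + 1) + 1) ≠ 0 := by positivity
  generalize V2 (2 * ((g : ℚ) + 1) + 1) g = A
  generalize (2 * ((g : ℚ) + 1) + 1) = q at *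
  field_simp

theorem W2_prod (h : ℕ) (h1 : 1 ≤ h) : W2 h *
    ((∏ i ∈ range (2 * h), (2 * ((i : ℚ) + 1) - (2 * (h : ℚ) + 1))) *
      ∏ j ∈ range h, (2 * (j : ℚ) + 1 + (2 * (h : ℚ) + 1))) =
    (∏ i ∈ range (2 * h), (2 * ((i : ℚ) + 1) + (2 * (h : ℚ) + 1))) *
      ∏ j ∈ range h, (2 * (j : ℚ) + 1 - (2 * (h : ℚ) + 1)) := by
  obtain ⟨g, rfl⟩ : ∃ g, h = g + 1 := ⟨h - 1, by omega⟩
  have h2 := V2_prod (g + 1) g
  unfold W2
  rw [Nat.add_sub_cancel]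
  rw [show 2 * (g + 1) = 2 * g + 1 + 1 by ring]
  simp only [prod_range_succ] at h2 ⊢
  push_cast at h2 ⊢
  have e1 : (2 * ((g : ℚ) + 1) + 1 - 2) ≠ 0 := by
    have : (0 : ℚ) ≤ g := Nat.cast_nonneg g
    intro h0
    linarith
  rw [div_mul_eq_mul_div, div_eq_iff e1]
  generalize ∏ i ∈ range (2 * g), (2 * ((i : ℚ) + 1) - (2 * ((g : ℚ) + 1) + 1)) = A1 at *
  generalize ∏ j ∈ range g, (2 * (j : ℚ) + 1 + (2 * ((g : ℚ) + 1) + 1)) = A2 at *
  generalize ∏ i ∈ range (2 * g), (2 * ((i : ℚ) + 1) + (2 * ((g : ℚ) + 1) + 1)) = A3 at *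
  generalize ∏ j ∈ range g, (2 * (j : ℚ) + 1 - (2 * ((g : ℚ) + 1) + 1)) = A4 at *
  generalize V2 (2 * ((g : ℚ) + 1) + 1) g = B0 at *
  linear_combination (-((3 * (2 * ((g : ℚ) + 1) + 1) - 4) * (3 * (2 * ((g : ℚ) + 1) + 1) - 2)) *
    (2 * ((g : ℚ) + 1) + 1 - 2)) * h2

theorem W2_mem (hp : p = 2 * h + 1) (h7 : 7 ≤ p) : W2 h ∈ Zp p := by
  have hq := cast_p hp
  unfold W2
  have h1 : ¬ (p : ℤ) ∣ ((p - 2 : ℕ) : ℤ) + (0 : ℤ) * p := ndvd (by omega) (by omega) _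
  have h3 := (Zp p).mul_mem (V2_mem hp h7 (h - 1) (by omega)) (intCast_mem_Zp (p := p)
        (-((3 * (p : ℤ) - 4) * (3 * (p : ℤ) - 2))))
  have h2 := div_int_mem p h3 h1
  rw [← hq] at h2 ⊢
  convert h2 using 2
  · push_cast
    ring
  · rw [Nat.cast_sub (by omega : 2 ≤ p)]
    push_cast
    ring

theorem S2_u (h : ℕ) (h1 : 1 ≤ h) :
    ∑ k ∈ range (h + 1), (168 * (k : ℚ) ^ 3 + 76 * (k : ℚ) ^ 2 + 14 * k + 1) / 2 ^ (20 * k) *
      ((2 * k).choose k : ℚ) ^ 7 =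
    (2 * (h : ℚ) + 1) ^ 3 * (((2 * h).choose h : ℚ) ^ 7 * (1 / (2 ^ (2 * h))) ^ 10 * (W2 h ^ 2 +
      (2 * (h : ℚ) + 1) ^ 3 *
      ∑ k ∈ range h, (2 * (k : ℚ) + 1) * V2 (2 * (h : ℚ) + 1) k ^ 2)) := by
  rw [S2_exact, sum_range_succ]
  have h2 := V2_last h h1
  have h3 : (2 : ℚ) ^ (2 * h) ≠ 0 := by positivity
  generalize ∑ k ∈ range h, (2 * (k : ℚ) + 1) * V2 (2 * (h : ℚ) + 1) k ^ 2 = S at *
  generalize V2 (2 * (h : ℚ) + 1) h = A at *
  rw [← h2]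
  generalize (2 : ℚ) ^ (2 * h) = t at *
  field_simp
  ring

theorem prodF2 (hp : p = 2 * h + 1) (h7 : 7 ≤ p) (c : ZMod (p ^ 5)) :
    ∏ i ∈ range (2 * h), (2 * ((i : ZMod (p ^ 5)) + 1) + c * (p : ZMod (p ^ 5))) =
      2 ^ (2 * h) * ((∏ i ∈ range (2 * h), ((i : ZMod (p ^ 5)) + 1)) * PF p h (c * rho p 2)) := by
  rw [← prodF hp]
  have : ((2 : ZMod (p ^ 5))) ^ (2 * h) = ∏ i ∈ range (2 * h), (2 : ZMod (p ^ 5)) := by simp
  rw [this, ← prod_mul_distrib]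
  refine prod_congr rfl fun i hi => ?_
  have h2 := two_rho (p := p) h7
  linear_combination (-(c * (p : ZMod (p ^ 5)))) * h2

theorem second_cong (hp : p = 2 * h + 1) (h7 : 7 ≤ p) : ∃ c : ℚ, ¬ p ∣ c.den ∧
    ∑ k ∈ range (h + 1), (168 * (k : ℚ) ^ 3 + 76 * (k : ℚ) ^ 2 + 14 * k + 1) / 2 ^ (20 * k) *
      ((2 * k).choose k : ℚ) ^ 7 - (-1) ^ h * (p : ℚ) ^ 3 = (p : ℚ) ^ 8 * c := by
  have hq := cast_p hp
  have hp0 : (p : ℚ) ≠ 0 := by exact_mod_cast hpf.out.ne_zero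
  -- elements
  set v : ℕ → Zp p := fun k => if hk : k < h then ⟨V2 (2 * (h : ℚ) + 1) k, V2_mem hp h7 k hk⟩ else 0 with hv
  have hvk : ∀ k, k < h → ((v k : Zp p) : ℚ) = V2 (2 * (h : ℚ) + 1) k := by
    intro k hk
    simp only [hv, dif_pos hk]
  set w : Zp p := ⟨W2 h, W2_mem hp h7⟩ with hw
  set ti : Zp p := ⟨1 / (2 : ℚ) ^ (2 * h), pow_two_mem h7 _⟩ with hti
  set S : Zp p := ∑ k ∈ range h, (2 * (k : Zp p) + 1) * v k ^ 2 with hS
  set u : Zp p := (((2 * h).choose h : ℕ) : Zp p) ^ 7 * ti ^ 10 * (w ^ 2 + (p : Zp p) ^ 3 * S) with hu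
  have hSc : (S : ℚ) = ∑ k ∈ range h, (2 * (k : ℚ) + 1) * V2 (2 * (h : ℚ) + 1) k ^ 2 := by
    rw [hS]
    push_cast
    refine sum_congr rfl fun k hk => ?_
    rw [hvk k (mem_range.mp hk), Zp_coe_ofNat]
  have huc : (u : ℚ) = ((2 * h).choose h : ℚ) ^ 7 * (1 / (2 ^ (2 * h))) ^ 10 * (W2 h ^ 2 +
      (2 * (h : ℚ) + 1) ^ 3 *
      ∑ k ∈ range h, (2 * (k : ℚ) + 1) * V2 (2 * (h : ℚ) + 1) k ^ 2) := by
    rw [hu]
    push_cast
    rw [hSc, hq]
  -- in `ZMod (p ^ 5)`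
  have hpsi : psi p u = (-1) ^ h := by
    have t1 : psi p ti * 2 ^ (2 * h) = 1 := by
      have e : ti * (2 : Zp p) ^ (2 * h) = 1 := by
        apply Subtype.ext
        rw [hti]
        push_cast
        rw [Zp_coe_ofNat]
        have : (2 : ℚ) ^ (2 * h) ≠ 0 := by positivity
        field_simp
      have := congrArg (psi p) e
      rw [map_mul, map_pow, map_ofNat, map_one] at this
      exact this
    have hc := cb_red (p := p) hp
    have hs : ((-1 : ZMod (p ^ 5)) ^ h) * (-1) ^ h = 1 := by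
      rw [← mul_pow]; simp
    have ht := t_red (p := p) hp h7
    have hwR : psi p w * (PF p h (- rho p 2) * PO p h 1) = PF p h (rho p 2) * PO p h (-1) := by
      have e : w * ((∏ i ∈ range (2 * h), (2 * ((i : Zp p) + 1) + (-1) * (p : Zp p))) *
          ∏ j ∈ range h, (2 * (j : Zp p) + 1 + 1 * (p : Zp p))) =
          (∏ i ∈ range (2 * h), (2 * ((i : Zp p) + 1) + 1 * (p : Zp p))) *
          ∏ j ∈ range h, (2 * (j : Zp p) + 1 + (-1) * (p : Zp p)) := by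
        apply Subtype.ext
        have e2 := W2_prod h (by omega)
        rw [← hq] at e2
        rw [hw]
        push_cast
        simp only [one_mul, neg_mul, ← sub_eq_add_neg]
        exact e2
      have e3 := congrArg (psi p) e
      simp only [map_mul, map_prod, map_add, map_neg, map_natCast, map_one, map_ofNat] at e3
      rw [prodF2 hp h7, prodF2 hp h7, prodO hp, prodO hp] at e3
      have u1 := (((unit2 (p := p) h7).pow (2 * h)).mul (unitF (p := p) hp)).mul (unitO (p := p) hp)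
      refine u1.mul_left_cancel ?_
      rw [neg_one_mul, one_mul] at e3
      linear_combination e3
    have hfam : ∀ k < h, (p : ZMod (p ^ 5)) ^ 3 * (psi p (v k)) ^ 2 = (p : ZMod (p ^ 5)) ^ 3 * (rho p (2 * k + 1) ^ 4 *
        (1 - 2 * (p : ZMod (p ^ 5)) * altR p k - (p : ZMod (p ^ 5)) * rho p (2 * k + 1))) := by
      refine fam2 hp h7 (fun k => psi p (v k)) ?_ ?_
      · have e : v 0 * ((2 - (p : Zp p)) * (1 + (p : Zp p))) = 2 := by
          apply Subtype.ext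
          have e2 := V2_zero h
          rw [← hvk 0 (by omega), ← hq] at e2
          push_cast
          exact e2
        have e3 := congrArg (psi p) e
        simp only [map_mul, map_add, map_sub, map_natCast, map_one, map_ofNat] at e3
        exact e3
      · intro k hk
        have e : v (k + 1) * ((2 * (2 * (k : Zp p) + 1 + 1) - (p : Zp p)) *
            (2 * (2 * (k : Zp p) + 1 + 2) - (p : Zp p)) * (2 * (k : Zp p) + 1 + 2 + (p : Zp p))) =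
            v k * ((2 * (2 * (k : Zp p) + 1) + (p : Zp p)) * (2 * (2 * (k : Zp p) + 1 + 1) + (p : Zp p)) *
              (2 * (k : Zp p) + 1 - (p : Zp p))) := by
          apply Subtype.ext
          have e2 := V2_succ h k
          rw [← hvk (k + 1) hk, ← hvk k (by omega), ← hq] at e2
          push_cast
          exact e2
        have e3 := congrArg (psi p) e
        simp only [map_mul, map_add, map_sub, map_natCast, map_one, map_ofNat] at e3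
        exact e3
    have hsum := fam2_sum (p := p) hp h7 (fun k => psi p (v k)) hfam
    have hSR : psi p S = ∑ k ∈ range h, (2 * (k : ZMod (p ^ 5)) + 1) * (psi p (v k)) ^ 2 := by
      rw [hS]
      simp only [map_sum, map_mul, map_pow, map_add, map_natCast, map_one, map_ofNat]
    have hfin := ring2 (p := p) hp h7 (b := PH p h (-1)) rfl ht hwR hsum
    rw [hu]
    simp only [map_mul, map_pow, map_add, map_natCast]
    rw [hSR, hc]
    have t10 : (psi p ti) ^ 10 * (2 ^ (2 * h)) ^ 10 = 1 := by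
      rw [← mul_pow, t1, one_pow]
    rw [mul_pow]
    have hs7 : ((-1 : ZMod (p ^ 5)) ^ h) ^ 7 = (-1) ^ h := by
      linear_combination (((-1 : ZMod (p ^ 5)) ^ h) ^ 5 + ((-1 : ZMod (p ^ 5)) ^ h) ^ 3 + ((-1 : ZMod (p ^ 5)) ^ h)) * hs
    rw [hs7]
    linear_combination (-1) ^ h * (psi p ti) ^ 10 * hfin + (-1) ^ h * t10
  have hmem : ((u - (-1) ^ h : Zp p) : ℚ) / (p : ℚ) ^ 5 ∈ Zp p := by
    apply mem_of_psi
    rw [map_sub, hpsi, map_pow, map_neg, map_one, sub_self]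
  refine ⟨((u - (-1) ^ h : Zp p) : ℚ) / (p : ℚ) ^ 5, den_of_mem p hmem, ?_⟩
  have e := S2_u h (by omega)
  rw [← huc, ← hq] at e
  rw [e]
  push_cast
  field_simp

end Pool.Agent.H54.SC
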